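import Pool.Agent.Harm938.Num

open Complex Set Filter Topology

namespace Pool.Agent.Harm938

/-- the Herglotz function `p` in the first coordinate. -/
noncomputable def p1 (m₁ m₂ : ℝ) (s : ℂ) : ℂ := 1 + (m₁:ℂ) * (I * s⁻¹) - (m₂:ℂ) * (I * s)

/-- the same Herglotz function in the second coordinate. -/
noncomputable def p2 (m₁ m₂ : ℝ) (s : ℂ) : ℂ :=
  1 + (m₁:ℂ) * (I * (1/160 + (DD:ℂ) * (s - 1/80)⁻¹))
    + (m₂:ℂ) * (I * (-160 + 25922 * (s + 162)⁻¹))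

/-- a primitive of `p1 ψ₁'`. -/
noncomputable def A1 (m₁ m₂ : ℝ) (s : ℂ) : ℂ :=
  psi 1 (81/2) s + (m₁:ℂ) * (I * (s + (81/2) * Complex.log s + s⁻¹))
    - (m₂:ℂ) * (I * (s^3/3 + (81/2) * (s^2/2) - s))

/-- a primitive of `p2 ψ₂'`. -/
noncomputable def A2 (m₁ m₂ C : ℝ) (s : ℂ) : ℂ :=
  (C:ℂ) + psi aa BB s
    + (m₁:ℂ) * (I * ((1/160) * psi aa BB s
        + (DD:ℂ) * ((aa:ℂ) * s + (q0:ℂ) * Complex.log (s - 1/80) + 80 * Complex.log s)))
    + (m₂:ℂ) * (I * (-160 * psi aa BB s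
        + 25922 * ((aa:ℂ) * s + (qi:ℂ) * Complex.log (s + 162) - (1/162) * Complex.log s)))

theorem ne_zero_of_im {s : ℂ} (hs : 0 < s.im) : s ≠ 0 := by
  rintro rfl; simp at hs

theorem p1_re {m₁ m₂ : ℝ} (h1 : 0 < m₁) (h2 : 0 < m₂) {s : ℂ} (hs : 0 < s.im) :
    1 ≤ (p1 m₁ m₂ s).re := by
  unfold p1
  have h3 := inv_im_neg hs
  rw [sub_re, add_re, re_ofReal_mul, re_ofReal_mul, I_mul_re, I_mul_re, one_re]
  nlinarith

theorem p2_re {m₁ m₂ : ℝ} (h1 : 0 < m₁) (h2 : 0 < m₂) {s : ℂ} (hs : 0 < s.im) :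
    1 ≤ (p2 m₁ m₂ s).re := by
  unfold p2
  have e1 : (s - 1/80).im = s.im := by
    rw [sub_im]
    have : ((1:ℂ)/80).im = 0 := by
      have : ((1:ℂ)/80) = ((1/80 : ℝ) : ℂ) := by push_cast; ring
      rw [this, ofReal_im]
    rw [this, sub_zero]
  have e2 : (s + 162).im = s.im := by
    rw [add_im]
    have : ((162:ℂ)).im = 0 := by
      have : ((162:ℂ)) = ((162 : ℝ) : ℂ) := by push_cast; ring
      rw [this, ofReal_im]
    rw [this, add_zero]
  have h3 := inv_im_neg (s := s - 1/80) (by rw [e1]; exact hs)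
  have h4 := inv_im_neg (s := s + 162) (by rw [e2]; exact hs)
  have f1 : ((1/160 + (DD:ℂ) * (s - 1/80)⁻¹)).im = DD * ((s - 1/80)⁻¹).im := by
    rw [add_im, im_ofReal_mul]
    have : ((1:ℂ)/160).im = 0 := by
      have : ((1:ℂ)/160) = ((1/160 : ℝ) : ℂ) := by push_cast; ring
      rw [this, ofReal_im]
    rw [this, zero_add]
  have f2 : ((-160 + 25922 * (s + 162)⁻¹ : ℂ)).im = 25922 * ((s + 162)⁻¹).im := by
    have e : (-160 + 25922 * (s + 162)⁻¹ : ℂ) = ((-160 : ℝ) : ℂ) + ((25922:ℝ):ℂ) * (s + 162)⁻¹ := by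
      push_cast; ring
    rw [e, add_im, im_ofReal_mul, ofReal_im, zero_add]
  rw [add_re, add_re, re_ofReal_mul, re_ofReal_mul, I_mul_re, I_mul_re, one_re, f1, f2]
  have hD : 0 < DD := by unfold DD; norm_num
  have g1 : 0 < - (DD * ((s - 1/80)⁻¹).im) := by nlinarith
  have g2 : 0 < - (25922 * ((s + 162)⁻¹).im) := by nlinarith
  nlinarith [mul_pos h1 g1, mul_pos h2 g2]

theorem A1_deriv (m₁ m₂ : ℝ) {s : ℂ} (hs : 0 < s.im) :
    HasDerivAt (A1 m₁ m₂) (p1 m₁ m₂ s * dpsi 1 (81/2) s) s := by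
  have hs0 := ne_zero_of_im hs
  have hpsi := psi_hasDerivAt 1 (81/2) hs
  have hlog : HasDerivAt Complex.log s⁻¹ s := Complex.hasDerivAt_log (mem_slit hs)
  have hinv : HasDerivAt (fun s : ℂ => s⁻¹) (-(s^2)⁻¹) s := hasDerivAt_inv hs0
  have hid : HasDerivAt (fun s : ℂ => s) 1 s := hasDerivAt_id s
  have h3 : HasDerivAt (fun s : ℂ => s^3/3) (s^2) s := by
    have := (hasDerivAt_pow 3 s).div_const 3
    have e : s^2 = ((3:ℕ):ℂ) * s^(3-1)/3 := by norm_num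
    rw [e]; exact this
  have h2 : HasDerivAt (fun s : ℂ => s^2/2) s s := by
    have := (hasDerivAt_pow 2 s).div_const 2
    have e : ((2:ℕ):ℂ) * s^(2-1)/2 = s := by norm_num
    rw [e] at this; exact this
  have hA : HasDerivAt (A1 m₁ m₂)
      (dpsi 1 (81/2) s + (m₁:ℂ) * (I * (1 + (81/2) * s⁻¹ + (-(s^2)⁻¹)))
        - (m₂:ℂ) * (I * (s^2 + (81/2) * s - 1))) s := by
    unfold A1
    exact (hpsi.add ((((hid.add (hlog.const_mul _)).add hinv).const_mul I).const_mul _)).sub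
      ((((h3.add (h2.const_mul _)).sub hid).const_mul I).const_mul _)
  convert hA using 1
  unfold p1 dpsi
  push_cast
  field_simp
  ring

theorem A2_deriv (m₁ m₂ C : ℝ) {s : ℂ} (hs : 0 < s.im) :
    HasDerivAt (A2 m₁ m₂ C) (p2 m₁ m₂ s * dpsi aa BB s) s := by
  have hs0 := ne_zero_of_im hs
  have e1 : (s - 1/80).im = s.im := by
    have : (s - 1/80) = s - ((1/80 : ℝ):ℂ) := by push_cast; ring
    rw [this, sub_im, ofReal_im, sub_zero]
  have e2 : (s + 162).im = s.im := by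
    have : (s + 162) = s + ((162 : ℝ):ℂ) := by push_cast; ring
    rw [this, add_im, ofReal_im, add_zero]
  have hs1 : s - 1/80 ≠ 0 := ne_zero_of_im (by rw [e1]; exact hs)
  have hs2 : s + 162 ≠ 0 := ne_zero_of_im (by rw [e2]; exact hs)
  have hpsi := psi_hasDerivAt aa BB hs
  have hlog : HasDerivAt Complex.log s⁻¹ s := Complex.hasDerivAt_log (mem_slit hs)
  have hid : HasDerivAt (fun s : ℂ => s) 1 s := hasDerivAt_id s
  have hlog1 : HasDerivAt (fun s : ℂ => Complex.log (s - 1/80)) ((s - 1/80)⁻¹) s := by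
    have := (Complex.hasDerivAt_log (mem_slit (s := s - 1/80) (by rw [e1]; exact hs))).comp s
      (hid.sub_const (1/80))
    rw [mul_one] at this
    exact this
  have hlog2 : HasDerivAt (fun s : ℂ => Complex.log (s + 162)) ((s + 162)⁻¹) s := by
    have := (Complex.hasDerivAt_log (mem_slit (s := s + 162) (by rw [e2]; exact hs))).comp s
      (hid.add_const (162))
    rw [mul_one] at this
    exact this
  have hA : HasDerivAt (A2 m₁ m₂ C)
      (dpsi aa BB s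
    + (m₁:ℂ) * (I * ((1/160) * dpsi aa BB s
        + (DD:ℂ) * ((aa:ℂ) * 1 + (q0:ℂ) * (s - 1/80)⁻¹ + 80 * s⁻¹)))
    + (m₂:ℂ) * (I * (-160 * dpsi aa BB s
        + 25922 * ((aa:ℂ) * 1 + (qi:ℂ) * (s + 162)⁻¹ - (1/162) * s⁻¹)))) s := by
    unfold A2
    exact ((hpsi.const_add _).add ((((hpsi.const_mul _).add
      ((((hid.const_mul _).add (hlog1.const_mul _)).add (hlog.const_mul _)).const_mul _)).const_mul I).const_mul _)).add
      ((((hpsi.const_mul _).add ((((hid.const_mul _).add (hlog2.const_mul _)).sub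
        (hlog.const_mul _)).const_mul _)).const_mul I).const_mul _)
  convert hA using 1
  have hi : s⁻¹ * s = 1 := inv_mul_cancel₀ hs0
  have hw1 : (s - 1/80)⁻¹ * (s - 1/80) = 1 := inv_mul_cancel₀ hs1
  have hw2 : (s + 162)⁻¹ * (s + 162) = 1 := inv_mul_cancel₀ hs2
  have k1 : dpsi aa BB s * (s - 1/80)⁻¹ = (aa:ℂ) * 1 + (q0:ℂ) * (s - 1/80)⁻¹ + 80 * s⁻¹ := by
    unfold dpsi q0
    push_cast
    linear_combination ((aa:ℂ) + 80 * s⁻¹) * hw1 - 80 * (s - 1/80)⁻¹ * hi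
  have k2 : dpsi aa BB s * (s + 162)⁻¹ = (aa:ℂ) * 1 + (qi:ℂ) * (s + 162)⁻¹ - (1/162) * s⁻¹ := by
    unfold dpsi qi
    push_cast
    linear_combination ((aa:ℂ) - s⁻¹/162) * hw2 + (s + 162)⁻¹/162 * hi
  rw [← k1, ← k2]
  unfold p2
  ring

end Pool.Agent.Harm938
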