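import Pool.Agent.Harm938.Level

open Complex Set Filter Topology

namespace Pool.Agent.Harm938

/-! ### far points of the level lines -/

/-- on every level line `Re ψ` is unbounded below. -/
theorem exists_low {a : ℝ} (B : ℝ) (ha : 0 < a) (Y N : ℝ) :
    ∃ s : ℂ, 0 < s.im ∧ (psi a B s).im = Y ∧ (psi a B s).re < N := by
  set K : ℝ := ((|Y| + Real.pi)^2) / (2*a) with hK
  obtain ⟨y, hy1, hy2⟩ : ∃ y : ℝ, 1 ≤ y ∧ K - a * y^2/2 < N := by
    refine ⟨max 1 (2 * (|K| + |N| + 1) / a), le_max_left _ _, ?_⟩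
    set y := max 1 (2 * (|K| + |N| + 1) / a) with hy
    have h1 : 1 ≤ y := le_max_left _ _
    have h2 : 2 * (|K| + |N| + 1) / a ≤ y := le_max_right _ _
    rw [div_le_iff₀ ha] at h2
    have h3 : K ≤ |K| := le_abs_self K
    have h4 : -|N| ≤ N := neg_abs_le N
    have h5 : y * a ≤ y^2 * a := by nlinarith [mul_nonneg (sub_nonneg.mpr h1) (mul_pos (lt_of_lt_of_le one_pos h1) ha).le]
    nlinarith
  have hy : 0 < y := lt_of_lt_of_le one_pos hy1
  obtain ⟨x, hx⟩ := exists_x B ha Y hy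
  refine ⟨(x:ℂ) + y * I, by simpa using hy, hx, ?_⟩
  rw [psi_re]
  have him := hx
  rw [psi_im] at him
  have ha1 := arg_pos (s := (x:ℂ) + y * I) (by simpa using hy)
  have ha2 := arg_lt_pi (s := (x:ℂ) + y * I) (by simpa using hy)
  set q := a * x + B with hq
  have hq1 : |y * q| ≤ |Y| + Real.pi := by
    have : y * q = Y + Complex.arg ((x:ℂ) + y * I) := by linarith
    rw [this]
    refine (abs_add_le _ _).trans ?_
    rw [abs_of_pos ha1]
    linarith
  have hq2 : |q| ≤ |Y| + Real.pi := by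
    rw [abs_mul, abs_of_pos hy] at hq1
    have : 0 ≤ |q| := abs_nonneg q
    nlinarith
  have hq3 : q^2 ≤ (|Y| + Real.pi)^2 := by
    rw [← sq_abs q]
    exact pow_le_pow_left₀ (abs_nonneg q) hq2 2
  have hlog : 0 ≤ Real.log ‖(x:ℂ) + y * I‖ := by
    apply Real.log_nonneg
    have : |((x:ℂ) + y * I).im| ≤ ‖(x:ℂ) + y * I‖ := Complex.abs_im_le_norm _
    simp at this
    rw [abs_of_pos hy] at this
    linarith
  have e : a * (x^2 - y^2) / 2 + B * x = (q^2 - B^2)/(2*a) - a*y^2/2 := by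
    rw [hq]; field_simp; ring
  rw [e]
  have h6 : (q^2 - B^2)/(2*a) ≤ K := by
    rw [hK]
    apply div_le_div_of_nonneg_right _ (by linarith)
    nlinarith [sq_nonneg B]
  linarith

theorem norm_xy_le (x y : ℝ) : ‖(x:ℂ) + y * I‖ ≤ |x| + |y| := by
  refine (norm_add_le _ _).trans ?_
  simp

theorem psi_im_cont_vert (a B : ℝ) {x : ℝ} (hx : x ≠ 0) :
    ContinuousOn (fun y : ℝ => (psi a B (x + y * I)).im) (Ici 0) := by
  intro y hy
  have hy' : 0 ≤ y := hy
  have hmaps : MapsTo (fun y : ℝ => (x:ℂ) + y * I) (Ici (0:ℝ)) {z : ℂ | 0 ≤ z.im} := by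
    intro z hz; simpa using hz
  have hlog : ContinuousWithinAt Complex.log {z : ℂ | 0 ≤ z.im} ((x:ℂ) + y * I) := by
    rcases lt_or_eq_of_le hy' with h | h
    · exact (continuousAt_clog (mem_slit (by simpa using h))).continuousWithinAt
    · rw [← h]
      rcases lt_or_gt_of_ne hx with h2 | h2
      · exact continuousWithinAt_log_of_re_neg_of_im_zero (by simpa using h2) (by simp)
      · apply ContinuousAt.continuousWithinAt
        apply continuousAt_clog
        left; simpa using h2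
  have hpsi : ContinuousWithinAt (psi a B) {z : ℂ | 0 ≤ z.im} ((x:ℂ) + y * I) := by
    unfold psi
    exact (Continuous.continuousWithinAt (by fun_prop)).sub hlog
  have h3 : ContinuousWithinAt (fun y : ℝ => psi a B ((x:ℂ) + y * I)) (Ici 0) y :=
    ContinuousWithinAt.comp (f := fun y : ℝ => (x:ℂ) + y * I) hpsi (by fun_prop) hmaps
  exact Complex.continuous_im.continuousAt.comp_continuousWithinAt h3

/-- positive levels: `Re ψ` is unbounded above. -/
theorem exists_high_pos {a : ℝ} (B : ℝ) (ha : 0 < a) {Y : ℝ} (hY : 0 < Y) (N : ℝ) :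
    ∃ s : ℂ, 0 < s.im ∧ (psi a B s).im = Y ∧ N < (psi a B s).re := by
  -- choose the abscissa
  set K : ℝ := max 1 (max ((Y + Real.pi + |B|) / a) (2 * (|N| + a + |B| + 3) / a)) with hK
  have hK1 : 1 ≤ K := le_max_left _ _
  have hK2 : (Y + Real.pi + |B|) / a ≤ K := (le_max_left _ _).trans (le_max_right _ _)
  have hK3 : 2 * (|N| + a + |B| + 3) / a ≤ K := (le_max_right _ _).trans (le_max_right _ _)
  rw [div_le_iff₀ ha] at hK2 hK3
  have hB1 := neg_abs_le B
  have hB2 := le_abs_self B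
  have hpi := Real.pi_pos
  have hKpos : 0 < K := by linarith
  have hq : Y + Real.pi ≤ a * K + B := by nlinarith
  have hcont := psi_im_cont_vert a B (x := K) hKpos.ne'
  have h0 : (psi a B ((K:ℂ) + (0:ℝ) * I)).im = 0 := by
    rw [psi_im]
    have : Complex.arg ((K:ℂ) + (0:ℝ) * I) = 0 := by
      simp only [ofReal_zero, zero_mul, add_zero]
      exact Complex.arg_ofReal_of_nonneg hKpos.le
    rw [this]; ring
  have h1 : Y ≤ (psi a B ((K:ℂ) + (1:ℝ) * I)).im := by
    rw [psi_im]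
    have := arg_lt_pi (s := (K:ℂ) + (1:ℝ) * I) (by simp)
    linarith
  have hIVT := intermediate_value_Icc (f := fun y : ℝ => (psi a B (K + y * I)).im) (zero_le_one)
    (hcont.mono Icc_subset_Ici_self)
  obtain ⟨y, ⟨hy0, hy1⟩, hy2⟩ := hIVT (show Y ∈ Icc _ _ from ⟨by rw [h0]; exact hY.le, h1⟩)
  have hy2' : (psi a B ((K:ℂ) + y * I)).im = Y := hy2
  have hypos : 0 < y := by
    rcases lt_or_eq_of_le hy0 with h | h
    · exact h
    · rw [← h, h0] at hy2'; linarith
  refine ⟨(K:ℂ) + y * I, by simpa using hypos, hy2', ?_⟩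
  rw [psi_re]
  have hlog : Real.log ‖(K:ℂ) + y * I‖ ≤ K := by
    have h5 := norm_xy_le K y
    rw [abs_of_pos hKpos, abs_of_pos hypos] at h5
    have h6 : 0 < ‖(K:ℂ) + y * I‖ := by
      apply norm_pos_iff.mpr
      intro h
      have := congrArg Complex.re h
      simp at this
      linarith
    have := Real.log_le_sub_one_of_pos h6
    linarith
  have hyy : y^2 ≤ 1 := by nlinarith
  have hN := le_abs_self N
  have h7 : a * (K^2 - y^2) / 2 ≥ a * K^2/2 - a/2 := by nlinarith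
  have h8 : B * K ≥ -|B| * K := by nlinarith
  have h9 : K * (K * a) ≥ K * (2 * (|N| + a + |B| + 3)) := by nlinarith
  have h10 : 0 ≤ |N| := abs_nonneg N
  have h11 : 0 ≤ |B| := abs_nonneg B
  nlinarith [mul_nonneg (sub_nonneg.mpr hK1) h10, mul_nonneg (sub_nonneg.mpr hK1) ha.le]

/-- levels below `-π`: `Re ψ` is unbounded above. -/
theorem exists_high_neg {a : ℝ} (B : ℝ) (ha : 0 < a) {Y : ℝ} (hY : Y < -Real.pi) (N : ℝ) :
    ∃ s : ℂ, 0 < s.im ∧ (psi a B s).im = Y ∧ N < (psi a B s).re := by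
  set K : ℝ := max 1 (max ((-Y + |B|) / a) (2 * (|N| + a + |B| + 3) / a)) with hK
  have hK1 : 1 ≤ K := le_max_left _ _
  have hK2 : (-Y + |B|) / a ≤ K := (le_max_left _ _).trans (le_max_right _ _)
  have hK3 : 2 * (|N| + a + |B| + 3) / a ≤ K := (le_max_right _ _).trans (le_max_right _ _)
  rw [div_le_iff₀ ha] at hK2 hK3
  have hB1 := neg_abs_le B
  have hB2 := le_abs_self B
  have hpi := Real.pi_pos
  have hKpos : 0 < K := by linarith
  have hq : a * (-K) + B ≤ Y := by nlinarith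
  have hcont := psi_im_cont_vert a B (x := -K) (by linarith)
  have h0 : (psi a B (((-K:ℝ):ℂ) + (0:ℝ) * I)).im = -Real.pi := by
    rw [psi_im]
    have : Complex.arg (((-K:ℝ):ℂ) + (0:ℝ) * I) = Real.pi := by
      rw [ofReal_zero, zero_mul, add_zero]
      exact Complex.arg_ofReal_of_neg (by linarith)
    rw [this]; ring
  have h1 : (psi a B (((-K:ℝ):ℂ) + (1:ℝ) * I)).im ≤ Y := by
    rw [psi_im]
    have := arg_pos (s := ((-K:ℝ):ℂ) + (1:ℝ) * I) (by simp)
    linarith
  have hIVT := intermediate_value_Icc' (f := fun y : ℝ => (psi a B ((-K:ℝ) + y * I)).im) (zero_le_one)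
    (hcont.mono Icc_subset_Ici_self)
  obtain ⟨y, ⟨hy0, hy1⟩, hy2⟩ := hIVT (show Y ∈ Icc _ _ from ⟨h1, by rw [h0]; exact hY.le⟩)
  have hy2' : (psi a B (((-K:ℝ):ℂ) + y * I)).im = Y := hy2
  have hypos : 0 < y := by
    rcases lt_or_eq_of_le hy0 with h | h
    · exact h
    · rw [← h, h0] at hy2'; linarith
  refine ⟨((-K:ℝ):ℂ) + y * I, by simpa using hypos, hy2', ?_⟩
  rw [psi_re]
  have hlog : Real.log ‖((-K:ℝ):ℂ) + y * I‖ ≤ K := by
    have h5 := norm_xy_le (-K) y
    rw [abs_neg, abs_of_pos hKpos, abs_of_pos hypos] at h5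
    have h6 : 0 < ‖((-K:ℝ):ℂ) + y * I‖ := by
      apply norm_pos_iff.mpr
      intro h
      have := congrArg Complex.re h
      simp at this
      linarith
    have := Real.log_le_sub_one_of_pos h6
    linarith
  have hyy : y^2 ≤ 1 := by nlinarith
  have hN := le_abs_self N
  have h7 : a * ((-K)^2 - y^2) / 2 ≥ a * K^2/2 - a/2 := by nlinarith
  have h8 : B * (-K) ≥ -|B| * K := by nlinarith
  have h9 : K * (K * a) ≥ K * (2 * (|N| + a + |B| + 3)) := by nlinarith
  have h10 : 0 ≤ |N| := abs_nonneg N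
  have h11 : 0 ≤ |B| := abs_nonneg B
  nlinarith [mul_nonneg (sub_nonneg.mpr hK1) h10, mul_nonneg (sub_nonneg.mpr hK1) ha.le]

/-- levels strictly between `-π` and `0`: `Re ψ` is unbounded above. -/
theorem exists_high_mid {a : ℝ} (B : ℝ) (ha : 0 < a) {Y : ℝ} (hY : -Real.pi < Y) (hY0 : Y < 0)
    (N : ℝ) : ∃ s : ℂ, 0 < s.im ∧ (psi a B s).im = Y ∧ N < (psi a B s).re := by
  set r : ℝ := Real.exp (-(|N| + a + |B| + 1)) with hr
  have hrpos : 0 < r := Real.exp_pos _
  have hr1 : r ≤ 1 := by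
    rw [hr]; apply Real.exp_le_one_iff.mpr
    have h10 : 0 ≤ |N| := abs_nonneg N
    have h11 : 0 ≤ |B| := abs_nonneg B
    linarith
  have hpi := Real.pi_pos
  set k : ℝ → ℝ := fun θ => (r * Real.sin θ) * (a * (r * Real.cos θ) + B) - θ with hk
  have hkc : Continuous k := by rw [hk]; fun_prop
  have hIVT := intermediate_value_Icc' (f := k) hpi.le hkc.continuousOn
  have k0 : k 0 = 0 := by rw [hk]; simp
  have kp : k Real.pi = -Real.pi := by rw [hk]; simp
  rw [k0, kp] at hIVT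
  obtain ⟨θ, ⟨h0, h1⟩, h2⟩ := hIVT (show Y ∈ Icc _ _ from ⟨hY.le, hY0.le⟩)
  have hθ0 : 0 < θ := by
    rcases lt_or_eq_of_le h0 with h | h
    · exact h
    · rw [← h, k0] at h2; linarith
  have hθ1 : θ < Real.pi := by
    rcases lt_or_eq_of_le h1 with h | h
    · exact h
    · rw [h, kp] at h2; linarith
  have hsin : 0 < Real.sin θ := Real.sin_pos_of_pos_of_lt_pi hθ0 hθ1
  set x := r * Real.cos θ with hx
  set y := r * Real.sin θ with hy
  have hypos : 0 < y := mul_pos hrpos hsin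
  have hpolar : (x:ℂ) + y * I = r * (Complex.cos θ + Complex.sin θ * I) := by
    rw [hx, hy]; push_cast; ring
  have harg : Complex.arg ((x:ℂ) + y * I) = θ := by
    rw [hpolar]
    exact Complex.arg_mul_cos_add_sin_mul_I hrpos ⟨by linarith, hθ1.le⟩
  have hnorm : ‖(x:ℂ) + y * I‖ = r := by
    rw [hpolar, norm_mul, Complex.norm_real, Real.norm_eq_abs, abs_of_pos hrpos,
      Complex.norm_cos_add_sin_mul_I, mul_one]
  refine ⟨(x:ℂ) + y * I, by simpa using hypos, ?_, ?_⟩
  · rw [psi_im, harg]; exact h2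
  · rw [psi_re, hnorm, hr, Real.log_exp]
    have hc1 := Real.cos_le_one θ
    have hc2 := Real.neg_one_le_cos θ
    have hx1 : |x| ≤ 1 := by
      rw [hx, abs_mul, abs_of_pos hrpos]
      have := Real.abs_cos_le_one θ
      nlinarith [abs_nonneg (Real.cos θ)]
    have hy1 : |y| ≤ 1 := by
      rw [hy, abs_mul, abs_of_pos hrpos]
      have := Real.abs_sin_le_one θ
      nlinarith [abs_nonneg (Real.sin θ)]
    have hyy : y^2 ≤ 1 := by
      rw [← sq_abs]; nlinarith [abs_nonneg y]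
    have hBx : |B * x| ≤ |B| := by
      rw [abs_mul]; nlinarith [abs_nonneg B, abs_nonneg x]
    have h5 := neg_abs_le (B * x)
    have h6 := le_abs_self N
    nlinarith [sq_nonneg x]

/-! ### the tips -/

/-- sign of `Im ψ - level` just above a real point. -/
theorem near_real (a B : ℝ) {x Ye : ℝ} (hx : x ≠ 0)
    (hYe : Ye = if 0 < x then 0 else -Real.pi) :
    ∃ J : ℝ → ℝ, J 0 = 0 ∧ HasDerivAt J (a * x + B - 1/x) 0 ∧
      ∀ y : ℝ, 0 < y → (psi a B (x + y * I)).im = Ye + J y := by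
  rcases lt_or_gt_of_ne hx with h | h
  · -- negative
    have hYe' : Ye = -Real.pi := by rw [hYe, if_neg (by linarith)]
    refine ⟨fun y => y * (a * x + B) - (Complex.log (-((x:ℂ) + y * I))).im, ?_, ?_, ?_⟩
    · show (0:ℝ) * (a * x + B) - (Complex.log (-((x:ℂ) + (0:ℝ) * I))).im = 0
      have e : -((x:ℂ) + (0:ℝ) * I) = ((-x : ℝ) : ℂ) := by push_cast; ring
      rw [Complex.log_im, e, Complex.arg_ofReal_of_nonneg (by linarith)]
      ring
    · have h1 : HasDerivAt (fun y : ℝ => -((x:ℂ) + y * I)) (-I) 0 := by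
        have : HasDerivAt (fun r : ℝ => (r:ℂ)) 1 0 := Complex.ofRealCLM.hasDerivAt
        have h := ((this.mul_const I).const_add (x:ℂ)).fun_neg
        rw [one_mul] at h
        exact h
      have h2 : HasDerivAt (fun y : ℝ => Complex.log (-((x:ℂ) + y * I)))
          (-I / (-((x:ℂ) + (0:ℝ) * I))) 0 := by
        apply h1.clog_real
        left; simpa using h
      have h3 := hasDerivAt_im' h2
      have h4 : (-I / (-((x:ℂ) + (0:ℝ) * I))).im = 1/x := by
        rw [ofReal_zero, zero_mul, add_zero, neg_div_neg_eq]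
        rw [div_ofReal_im]; simp
      rw [h4] at h3
      have h5 : HasDerivAt (fun y : ℝ => y * (a * x + B)) (a * x + B) 0 := by
        simpa using (hasDerivAt_id (0:ℝ)).mul_const (a * x + B)
      exact h5.sub h3
    · intro y hy
      show _ = Ye + (y * (a * x + B) - (Complex.log (-((x:ℂ) + y * I))).im)
      rw [psi_im, Complex.log_im, Complex.arg_neg_eq_arg_sub_pi_of_im_pos (by simpa using hy), hYe']
      ring
  · have hYe' : Ye = 0 := by rw [hYe, if_pos h]
    refine ⟨fun y => y * (a * x + B) - (Complex.log ((x:ℂ) + y * I)).im, ?_, ?_, ?_⟩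
    · show (0:ℝ) * (a * x + B) - (Complex.log ((x:ℂ) + (0:ℝ) * I)).im = 0
      have e : (x:ℂ) + (0:ℝ) * I = (x : ℂ) := by push_cast; ring
      rw [Complex.log_im, e, Complex.arg_ofReal_of_nonneg (by linarith)]
      ring
    · have h1 : HasDerivAt (fun y : ℝ => ((x:ℂ) + y * I)) (I) 0 := by
        have : HasDerivAt (fun r : ℝ => (r:ℂ)) 1 0 := Complex.ofRealCLM.hasDerivAt
        simpa using ((this.mul_const I).const_add (x:ℂ))
      have h2 : HasDerivAt (fun y : ℝ => Complex.log ((x:ℂ) + y * I))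
          (I / ((x:ℂ) + (0:ℝ) * I)) 0 := by
        apply h1.clog_real
        left; simpa using h
      have h3 := hasDerivAt_im' h2
      have h4 : (I / ((x:ℂ) + (0:ℝ) * I)).im = 1/x := by
        rw [ofReal_zero, zero_mul, add_zero]
        rw [div_ofReal_im]; simp
      rw [h4] at h3
      have h5 : HasDerivAt (fun y : ℝ => y * (a * x + B)) (a * x + B) 0 := by
        simpa using (hasDerivAt_id (0:ℝ)).mul_const (a * x + B)
      exact h5.sub h3
    · intro y hy
      show _ = Ye + (y * (a * x + B) - (Complex.log ((x:ℂ) + y * I)).im)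
      rw [psi_im, Complex.log_im, hYe']
      ring

theorem eventually_pos_of_deriv {J : ℝ → ℝ} {m : ℝ} (h0 : J 0 = 0) (hJ : HasDerivAt J m 0)
    (hm : 0 < m) : ∀ᶠ y : ℝ in 𝓝[>] (0:ℝ), 0 < J y := by
  have h1 : Tendsto (slope J 0) (𝓝[≠] 0) (𝓝 m) := hasDerivAt_iff_tendsto_slope.mp hJ
  have h2 : ∀ᶠ y : ℝ in 𝓝[≠] (0:ℝ), 0 < slope J 0 y := h1.eventually (lt_mem_nhds hm)
  have h3 : ∀ᶠ y : ℝ in 𝓝[>] (0:ℝ), 0 < slope J 0 y :=
    h2.filter_mono (nhdsWithin_mono _ (fun y hy => ne_of_gt hy))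
  filter_upwards [h3, self_mem_nhdsWithin] with y hy hy0
  have hy0' : (0:ℝ) < y := hy0
  rw [slope_def_field, h0, sub_zero, sub_zero] at hy
  exact (div_pos_iff_of_pos_right hy0').mp hy

theorem near_real_pos (a B : ℝ) {x Ye : ℝ} (hx : x ≠ 0)
    (hYe : Ye = if 0 < x then 0 else -Real.pi) (hpos : 0 < a * x + B - 1/x) :
    ∀ᶠ y : ℝ in 𝓝[>] (0:ℝ), Ye < (psi a B (x + y * I)).im := by
  obtain ⟨J, h0, hJ, hJ2⟩ := near_real a B hx hYe
  filter_upwards [eventually_pos_of_deriv h0 hJ hpos, self_mem_nhdsWithin] with y hy hy0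
  have hy0' : (0:ℝ) < y := hy0
  rw [hJ2 y hy0']; linarith

theorem near_real_neg (a B : ℝ) {x Ye : ℝ} (hx : x ≠ 0)
    (hYe : Ye = if 0 < x then 0 else -Real.pi) (hneg : a * x + B - 1/x < 0) :
    ∀ᶠ y : ℝ in 𝓝[>] (0:ℝ), (psi a B (x + y * I)).im < Ye := by
  obtain ⟨J, h0, hJ, hJ2⟩ := near_real a B hx hYe
  have hJ' : HasDerivAt (fun y => - J y) (-(a * x + B - 1/x)) 0 := hJ.neg
  filter_upwards [eventually_pos_of_deriv (J := fun y => - J y) (by simp [h0]) hJ' (by linarith),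
    self_mem_nhdsWithin] with y hy hy0
  have hy0' : (0:ℝ) < y := hy0
  rw [hJ2 y hy0']; linarith

end Pool.Agent.Harm938
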