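import Mathlib

open Complex Set Filter Topology

namespace Pool.Agent.Harm938

/-- The open upper half plane, as a set of complex numbers. -/
def UH : Set ℂ := {s : ℂ | 0 < s.im}

theorem isOpen_UH : IsOpen UH := isOpen_lt continuous_const Complex.continuous_im

/-- `ψ(s) = a s²/2 + B s - log s`. -/
noncomputable def psi (a B : ℝ) (s : ℂ) : ℂ := (a:ℂ) * s^2 / 2 + (B:ℂ) * s - Complex.log s

/-- The derivative of `psi`. -/
noncomputable def dpsi (a B : ℝ) (s : ℂ) : ℂ := (a:ℂ) * s + (B:ℂ) - s⁻¹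

theorem hasDerivAt_re' {γ : ℝ → ℂ} {γ' : ℂ} {r : ℝ} (h : HasDerivAt γ γ' r) :
    HasDerivAt (fun t => (γ t).re) γ'.re r :=
  Complex.reCLM.hasFDerivAt.comp_hasDerivAt r h

theorem hasDerivAt_im' {γ : ℝ → ℂ} {γ' : ℂ} {r : ℝ} (h : HasDerivAt γ γ' r) :
    HasDerivAt (fun t => (γ t).im) γ'.im r :=
  Complex.imCLM.hasFDerivAt.comp_hasDerivAt r h

theorem mem_slit {s : ℂ} (hs : 0 < s.im) : s ∈ Complex.slitPlane := by
  right; exact ne_of_gt hs

theorem psi_hasDerivAt' (a B : ℝ) {s : ℂ} (hs : s ∈ Complex.slitPlane) :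
    HasDerivAt (psi a B) (dpsi a B s) s := by
  unfold psi dpsi
  have h1 : HasDerivAt (fun s : ℂ => (a:ℂ) * s^2 / 2) ((a:ℂ) * s) s := by
    have := ((hasDerivAt_pow 2 s).const_mul (a:ℂ)).div_const 2
    have e : (a:ℂ) * s = (a:ℂ) * (((2:ℕ):ℂ) * s ^ (2 - 1)) / 2 := by
      norm_num
      ring
    rw [e]
    exact this
  have h2 : HasDerivAt (fun s : ℂ => (B:ℂ) * s) (B:ℂ) s := by
    simpa using (hasDerivAt_id s).const_mul (B:ℂ)
  exact (h1.add h2).sub (Complex.hasDerivAt_log hs)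

theorem psi_hasDerivAt (a B : ℝ) {s : ℂ} (hs : 0 < s.im) :
    HasDerivAt (psi a B) (dpsi a B s) s := psi_hasDerivAt' a B (mem_slit hs)

theorem inv_im_neg {s : ℂ} (hs : 0 < s.im) : (s⁻¹).im < 0 := by
  rw [Complex.inv_im]
  have h0 : s ≠ 0 := by rintro rfl; simp at hs
  have : 0 < Complex.normSq s := Complex.normSq_pos.mpr h0
  apply div_neg_of_neg_of_pos _ this
  linarith

theorem dpsi_im_pos {a : ℝ} (B : ℝ) (ha : 0 ≤ a) {s : ℂ} (hs : 0 < s.im) :
    0 < (dpsi a B s).im := by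
  unfold dpsi
  have h := inv_im_neg hs
  simp only [sub_im, add_im, mul_im, ofReal_re, ofReal_im, zero_mul, add_zero]
  have : 0 ≤ a * s.im := mul_nonneg ha hs.le
  linarith

theorem dpsi_ne {a : ℝ} (B : ℝ) (ha : 0 ≤ a) {s : ℂ} (hs : 0 < s.im) : dpsi a B s ≠ 0 := by
  intro h
  have := dpsi_im_pos B ha hs
  rw [h] at this; simp at this

/-- The Noshiro–Warschawski estimate. -/
theorem nw {f f' : ℂ → ℂ} (hf : ∀ s, 0 < s.im → HasDerivAt f (f' s) s)
    (h' : ∀ s, 0 < s.im → 0 < (f' s).im) {s t : ℂ} (hs : 0 < s.im) (ht : 0 < t.im)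
    (hst : s ≠ t) : 0 < ((f t - f s) / (t - s)).im := by
  have hts : t - s ≠ 0 := sub_ne_zero.mpr (Ne.symm hst)
  -- point on the segment
  have himpos : ∀ r : ℝ, r ∈ Icc (0:ℝ) 1 → 0 < (s + (r:ℂ) * (t - s)).im := by
    intro r hr
    simp only [add_im, mul_im, ofReal_re, ofReal_im, zero_mul, add_zero, sub_im]
    rcases hr with ⟨h0, h1⟩
    rcases eq_or_lt_of_le h0 with h | h
    · rw [← h]; simpa using hs
    · nlinarith [mul_pos h ht, mul_nonneg (sub_nonneg.mpr h1) hs.le]
  have hline : ∀ r : ℝ, HasDerivAt (fun r : ℝ => s + (r:ℂ) * (t - s)) (t - s) r := by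
    intro r
    have h1 : HasDerivAt (fun r : ℝ => (r:ℂ)) 1 r := Complex.ofRealCLM.hasDerivAt
    simpa using (h1.mul_const (t - s)).const_add s
  have hder : ∀ r : ℝ, r ∈ Icc (0:ℝ) 1 →
      HasDerivAt (fun r : ℝ => (f (s + (r:ℂ) * (t - s)) / (t - s)).im)
        (f' (s + (r:ℂ) * (t - s))).im r := by
    intro r hr
    have h1 : HasDerivAt (fun r : ℝ => f (s + (r:ℂ) * (t - s)))
        (f' (s + (r:ℂ) * (t - s)) * (t - s)) r := by
      have := (hf _ (himpos r hr)).scomp r (hline r)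
      simpa [Function.comp_def, mul_comm] using this
    have h2 := hasDerivAt_im' (h1.div_const (t - s))
    rwa [mul_div_cancel_right₀ _ hts] at h2
  have hcont : ContinuousOn (fun r : ℝ => (f (s + (r:ℂ) * (t - s)) / (t - s)).im) (Icc 0 1) :=
    fun r hr => (hder r hr).continuousAt.continuousWithinAt
  obtain ⟨r, hr, hr'⟩ := exists_hasDerivAt_eq_slope _ _ (zero_lt_one) hcont
    (fun x hx => hder x (Ioo_subset_Icc_self hx))
  have h3 := h' _ (himpos r (Ioo_subset_Icc_self hr))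
  rw [hr'] at h3
  simp only [ofReal_one, one_mul, ofReal_zero, zero_mul, add_zero, sub_zero, div_one,
    add_sub_cancel] at h3
  rw [sub_div, sub_im]
  exact h3

theorem nw_psi {a : ℝ} (B : ℝ) (ha : 0 ≤ a) {s t : ℂ} (hs : 0 < s.im) (ht : 0 < t.im)
    (hst : s ≠ t) : 0 < ((psi a B t - psi a B s) / (t - s)).im :=
  nw (fun _ h => psi_hasDerivAt a B h) (fun _ h => dpsi_im_pos B ha h) hs ht hst

theorem psi_injOn {a : ℝ} (B : ℝ) (ha : 0 ≤ a) : InjOn (psi a B) UH := by
  intro s hs t ht h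
  by_contra hne
  have := nw_psi B ha hs ht hne
  rw [h] at this
  simp at this

/-- along a level line `Re ψ` decreases with the height. -/
theorem level_lt {a : ℝ} (B : ℝ) (ha : 0 ≤ a) {s t : ℂ} (hs : 0 < s.im) (ht : 0 < t.im)
    (hl : (psi a B s).im = (psi a B t).im) (hlt : s.im < t.im) :
    (psi a B t).re < (psi a B s).re := by
  have hne : s ≠ t := by rintro rfl; exact lt_irrefl _ hlt
  have h := nw_psi B ha hs ht hne
  have hr : psi a B t - psi a B s = (((psi a B t).re - (psi a B s).re : ℝ) : ℂ) := by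
    apply Complex.ext
    · simp
    · simp [hl]
  rw [hr, div_eq_mul_inv, im_ofReal_mul] at h
  have h2 := inv_im_neg (s := t - s) (by simp; exact hlt)
  nlinarith

/-- horizontally `Im ψ` increases. -/
theorem horiz_lt {a : ℝ} (B : ℝ) (ha : 0 ≤ a) {y x x' : ℝ} (hy : 0 < y) (hx : x < x') :
    (psi a B (x + y * I)).im < (psi a B (x' + y * I)).im := by
  have hne : ((x:ℂ) + y * I) ≠ ((x':ℂ) + y * I) := by
    intro h
    have := congrArg Complex.re h
    simp at this
    exact (ne_of_lt hx) this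
  have h := nw_psi B ha (s := (x:ℂ) + y * I) (t := (x':ℂ) + y * I) (by simpa using hy)
    (by simpa using hy) hne
  have hr : ((x':ℂ) + y * I) - ((x:ℂ) + y * I) = (((x' - x : ℝ)) : ℂ) := by
    push_cast; ring
  rw [hr, div_eq_mul_inv, ← ofReal_inv, mul_comm, im_ofReal_mul, sub_im] at h
  have : 0 < (x' - x)⁻¹ := inv_pos.mpr (by linarith)
  nlinarith [(pos_iff_pos_of_mul_pos h).mp this]

theorem arg_pos {s : ℂ} (hs : 0 < s.im) : 0 < Complex.arg s := by
  rcases lt_or_eq_of_le (Complex.arg_nonneg_iff.mpr hs.le) with h | h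
  · exact h
  · exfalso
    have := Complex.arg_eq_zero_iff.mp h.symm
    linarith [this.2]

theorem arg_lt_pi {s : ℂ} (hs : 0 < s.im) : Complex.arg s < Real.pi := by
  apply Complex.arg_lt_pi_iff.mpr
  right; exact ne_of_gt hs

theorem psi_im (a B : ℝ) (x y : ℝ) :
    (psi a B (x + y * I)).im = y * (a * x + B) - Complex.arg (x + y * I) := by
  unfold psi
  rw [sub_im, Complex.log_im, add_im]
  have h1 : ((a:ℂ) * ((x:ℂ) + y * I)^2 / 2).im = a * x * y := by
    have : (a:ℂ) * ((x:ℂ) + y * I)^2 / 2 = ((a * (x^2 - y^2)/2 : ℝ) : ℂ) + ((a * x * y : ℝ):ℂ) * I := by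
      push_cast
      linear_combination (a:ℂ) * (y:ℂ)^2 / 2 * Complex.I_sq
    rw [this]
    simp only [add_im, mul_im, ofReal_re, ofReal_im, I_re, I_im, mul_one, mul_zero, zero_add,
      add_zero]
  have h2 : ((B:ℂ) * ((x:ℂ) + y * I)).im = B * y := by simp
  rw [h1, h2]; ring

theorem psi_re (a B : ℝ) (x y : ℝ) :
    (psi a B (x + y * I)).re = a * (x^2 - y^2) / 2 + B * x - Real.log ‖(x:ℂ) + y * I‖ := by
  unfold psi
  rw [sub_re, Complex.log_re, add_re]
  have h1 : ((a:ℂ) * ((x:ℂ) + y * I)^2 / 2).re = a * (x^2 - y^2) / 2 := by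
    have : (a:ℂ) * ((x:ℂ) + y * I)^2 / 2 = ((a * (x^2 - y^2)/2 : ℝ) : ℂ) + ((a * x * y : ℝ):ℂ) * I := by
      push_cast
      linear_combination (a:ℂ) * (y:ℂ)^2 / 2 * Complex.I_sq
    rw [this]
    simp only [add_re, mul_re, ofReal_re, ofReal_im, I_re, I_im, mul_one, mul_zero,
      add_zero, sub_zero]
  have h2 : ((B:ℂ) * ((x:ℂ) + y * I)).re = B * x := by simp
  rw [h1, h2]

theorem psi_continuousAt (a B : ℝ) {s : ℂ} (hs : 0 < s.im) : ContinuousAt (psi a B) s :=
  (psi_hasDerivAt a B hs).continuousAt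

/-- on every height there is a point of every level. -/
theorem exists_x {a : ℝ} (B : ℝ) (ha : 0 < a) (Y : ℝ) {y : ℝ} (hy : 0 < y) :
    ∃ x : ℝ, (psi a B (x + y * I)).im = Y := by
  have hcont : Continuous (fun x : ℝ => (psi a B (x + y * I)).im) := by
    rw [continuous_iff_continuousAt]
    intro x
    have h1 : ContinuousAt (psi a B) ((x:ℂ) + y * I) := psi_continuousAt a B (by simpa using hy)
    have h2 : ContinuousAt (fun x : ℝ => (x:ℂ) + y * I) x := by fun_prop
    exact Complex.continuous_im.continuousAt.comp (ContinuousAt.comp (f := fun x : ℝ => (x:ℂ) + y * I) h1 h2)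
  set x₁ : ℝ := (Y / y - B) / a with hx₁
  set x₂ : ℝ := ((Y + Real.pi) / y - B) / a with hx₂
  have e1 : y * (a * x₁ + B) = Y := by rw [hx₁]; field_simp; ring
  have e2 : y * (a * x₂ + B) = Y + Real.pi := by rw [hx₂]; field_simp; ring
  have h1 : (psi a B (x₁ + y * I)).im ≤ Y := by
    rw [psi_im, e1]
    have := arg_pos (s := (x₁:ℂ) + y * I) (by simpa using hy)
    linarith
  have h2 : Y ≤ (psi a B (x₂ + y * I)).im := by
    rw [psi_im, e2]
    have := arg_lt_pi (s := (x₂:ℂ) + y * I) (by simpa using hy)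
    linarith
  have := intermediate_value_univ x₁ x₂ hcont (show Y ∈ Icc _ _ from ⟨h1, h2⟩)
  exact this

/-- the level curve. -/
noncomputable def xlev (a B Y y : ℝ) : ℝ :=
  open Classical in if h : ∃ x : ℝ, (psi a B (x + y * I)).im = Y then h.choose else 0

theorem xlev_spec {a : ℝ} (B : ℝ) (ha : 0 < a) (Y : ℝ) {y : ℝ} (hy : 0 < y) :
    (psi a B (xlev a B Y y + y * I)).im = Y := by
  unfold xlev
  rw [dif_pos (exists_x B ha Y hy)]
  exact (exists_x B ha Y hy).choose_spec

theorem xlev_unique {a : ℝ} {B : ℝ} (ha : 0 < a) {Y : ℝ} {y x : ℝ} (hy : 0 < y)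
    (h : (psi a B (x + y * I)).im = Y) : x = xlev a B Y y := by
  have h2 := xlev_spec B ha Y hy
  rcases lt_trichotomy x (xlev a B Y y) with h3 | h3 | h3
  · have := horiz_lt B ha.le hy h3
    rw [h, h2] at this; exact absurd this (lt_irrefl _)
  · exact h3
  · have := horiz_lt B ha.le hy h3
    rw [h, h2] at this; exact absurd this (lt_irrefl _)

theorem lt_xlev {a : ℝ} {B : ℝ} (ha : 0 < a) {Y : ℝ} {y x : ℝ} (hy : 0 < y)
    (h : (psi a B (x + y * I)).im < Y) : x < xlev a B Y y := by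
  by_contra hcon
  push Not at hcon
  rcases lt_or_eq_of_le hcon with h3 | h3
  · have := horiz_lt B ha.le hy h3
    rw [xlev_spec B ha Y hy] at this; linarith
  · rw [← h3, xlev_spec B ha Y hy] at h; exact lt_irrefl _ h

theorem xlev_lt {a : ℝ} {B : ℝ} (ha : 0 < a) {Y : ℝ} {y x : ℝ} (hy : 0 < y)
    (h : Y < (psi a B (x + y * I)).im) : xlev a B Y y < x := by
  by_contra hcon
  push Not at hcon
  rcases lt_or_eq_of_le hcon with h3 | h3
  · have := horiz_lt B ha.le hy h3
    rw [xlev_spec B ha Y hy] at this; linarith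
  · rw [h3, xlev_spec B ha Y hy] at h; exact lt_irrefl _ h

theorem xlev_continuousAt {a : ℝ} (B : ℝ) (ha : 0 < a) (Y : ℝ) {y : ℝ} (hy : 0 < y) :
    ContinuousAt (xlev a B Y) y := by
  have hpsi : ∀ x : ℝ, ContinuousAt (fun y : ℝ => (psi a B (x + y * I)).im) y := by
    intro x
    have h1 : ContinuousAt (psi a B) ((x:ℂ) + y * I) := psi_continuousAt a B (by simpa using hy)
    have h2 : ContinuousAt (fun y : ℝ => (x:ℂ) + y * I) y := by fun_prop
    exact Complex.continuous_im.continuousAt.comp (ContinuousAt.comp (f := fun y : ℝ => (x:ℂ) + y * I) h1 h2)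
  have hpos : ∀ᶠ z in 𝓝 y, 0 < z := lt_mem_nhds hy
  rw [ContinuousAt, tendsto_order]
  constructor
  · intro x hx
    have h1 := horiz_lt B ha.le hy hx
    rw [xlev_spec B ha Y hy] at h1
    filter_upwards [(hpsi x).eventually_lt continuousAt_const h1, hpos] with z hz hz0
    exact lt_xlev ha hz0 hz
  · intro x hx
    have h1 := horiz_lt B ha.le hy hx
    rw [xlev_spec B ha Y hy] at h1
    filter_upwards [(continuousAt_const).eventually_lt (hpsi x) h1, hpos] with z hz hz0
    exact xlev_lt ha hz0 hz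

/-- the level set `{s ∈ UH : Im ψ(s) = Y}` is connected. -/
theorem level_preconnected {a : ℝ} (B : ℝ) (ha : 0 < a) (Y : ℝ) :
    IsPreconnected {s : ℂ | 0 < s.im ∧ (psi a B s).im = Y} := by
  have h : {s : ℂ | 0 < s.im ∧ (psi a B s).im = Y}
      = (fun y : ℝ => ((xlev a B Y y : ℝ) : ℂ) + y * I) '' Ioi 0 := by
    ext s
    constructor
    · rintro ⟨h1, h2⟩
      refine ⟨s.im, h1, ?_⟩
      have hs : s = (s.re : ℂ) + s.im * I := (Complex.re_add_im s).symm
      have h3 := xlev_unique (a := a) (B := B) (Y := Y) (x := s.re) ha h1 (by rw [← hs]; exact h2)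
      show ((xlev a B Y s.im : ℝ) : ℂ) + s.im * I = s
      rw [← h3]; exact hs.symm
    · rintro ⟨y, hy, rfl⟩
      exact ⟨by simpa using hy, xlev_spec B ha Y hy⟩
  rw [h]
  apply isPreconnected_Ioi.image
  intro y hy
  apply ContinuousAt.continuousWithinAt
  have h1 := xlev_continuousAt B ha Y (show 0 < y from hy)
  have h2 : ContinuousAt (fun y : ℝ => ((xlev a B Y y : ℝ) : ℂ)) y :=
    Complex.continuous_ofReal.continuousAt.comp h1
  exact h2.add (by fun_prop)

/-! ### the inverse of `ψ` and the basic monotonicity estimate -/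

theorem key_mono {a : ℝ} (B : ℝ) (ha : 0 < a) {A p : ℂ → ℂ}
    (hA : ∀ s, 0 < s.im → HasDerivAt A (p s * dpsi a B s) s)
    (hp : ∀ s, 0 < s.im → 1 ≤ (p s).re) {s t : ℂ} (hs : 0 < s.im) (ht : 0 < t.im)
    (hl : (psi a B s).im = (psi a B t).im) (hlt : s.im < t.im) :
    (psi a B s).re - (psi a B t).re ≤ (A s).re - (A t).re := by
  classical
  set Y := (psi a B s).im with hY
  set χ : ℂ → ℂ := Function.invFunOn (psi a B) UH with hχ
  have hinj := psi_injOn B ha.le (a := a)
  have hleft : ∀ z ∈ UH, χ (psi a B z) = z := fun z hz => hinj.leftInvOn_invFunOn hz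
  -- derivative of χ
  have hχd : ∀ z ∈ UH, HasDerivAt χ (dpsi a B z)⁻¹ (psi a B z) := by
    intro z hz
    have hz' : 0 < z.im := hz
    have hstrict : HasStrictDerivAt (psi a B) (dpsi a B z) z := by
      have hd : DifferentiableOn ℂ (psi a B) UH := fun w hw =>
        (psi_hasDerivAt a B hw).differentiableAt.differentiableWithinAt
      have := (hd.analyticAt (isOpen_UH.mem_nhds hz)).hasStrictDerivAt
      rwa [(psi_hasDerivAt a B hz').deriv] at this
    have hmap := hstrict.map_nhds_eq (dpsi_ne B ha.le hz')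
    have hev : ∀ᶠ w in 𝓝 z, χ (psi a B w) = w := by
      filter_upwards [isOpen_UH.mem_nhds hz] with w hw using hleft w hw
    have hcont : ContinuousAt χ (psi a B z) := by
      rw [ContinuousAt, hleft z hz, ← hmap, tendsto_map'_iff]
      exact (tendsto_id.congr' (by filter_upwards [hev] with w hw using hw.symm))
    have hev2 : ∀ᶠ w in 𝓝 (psi a B z), psi a B (χ w) = w := by
      rw [← hmap, eventually_map]
      filter_upwards [hev] with w hw
      rw [hw]
    apply HasDerivAt.of_local_left_inverse hcont _ (dpsi_ne B ha.le hz') hev2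
    rw [hleft z hz]
    exact psi_hasDerivAt a B hz'
  -- the interval
  have hconv : (( fun z : ℂ => (psi a B z).re) '' {z : ℂ | 0 < z.im ∧ (psi a B z).im = Y}).OrdConnected := by
    apply IsPreconnected.ordConnected
    apply (level_preconnected B ha Y).image
    intro z hz
    exact (Complex.continuous_re.continuousAt.comp (psi_continuousAt a B hz.1)).continuousWithinAt
  have hsub := hconv.out ⟨t, ⟨ht, hl.symm⟩, rfl⟩ ⟨s, ⟨hs, rfl⟩, rfl⟩
  have hlt2 := level_lt B ha.le hs ht hl hlt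
  set R : ℝ → ℝ := fun r => (A (χ ((r:ℂ) + Y * I))).re with hR
  have hRd : ∀ r ∈ Icc (psi a B t).re (psi a B s).re, ∃ q : ℝ, 1 ≤ q ∧ HasDerivAt R q r := by
    intro r hr
    obtain ⟨z, ⟨hz1, hz2⟩, hz3⟩ := hsub hr
    have hz3' : (psi a B z).re = r := hz3
    have e : (r:ℂ) + Y * I = psi a B z := by
      rw [← Complex.re_add_im (psi a B z), hz2, hz3']
    refine ⟨(p z).re, hp z hz1, ?_⟩
    have h1 : HasDerivAt (fun r : ℝ => (r:ℂ) + Y * I) 1 r := by
      have : HasDerivAt (fun r : ℝ => (r:ℂ)) 1 r := Complex.ofRealCLM.hasDerivAt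
      exact this.add_const _
    have h2 : HasDerivAt (fun w => A (χ w)) (p z) (psi a B z) := by
      have h3 : HasDerivAt A (p z * dpsi a B z) (χ (psi a B z)) := by
        rw [hleft z hz1]; exact hA z hz1
      have h4 := h3.comp (psi a B z) (hχd z hz1)
      rwa [mul_assoc, mul_inv_cancel₀ (dpsi_ne B ha.le hz1), mul_one] at h4
    rw [← e] at h2
    have h5 := h2.scomp r h1
    simp only [one_smul] at h5
    exact hasDerivAt_re' h5
  have hmvt := (convex_Icc (psi a B t).re (psi a B s).re).mul_sub_le_image_sub_of_le_deriv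
    (f := R) (C := 1) (fun r hr => by
      obtain ⟨q, _, hq⟩ := hRd r hr
      exact hq.continuousAt.continuousWithinAt)
    (fun r hr => by
      obtain ⟨q, _, hq⟩ := hRd r (interior_subset hr)
      exact hq.differentiableAt.differentiableWithinAt)
    (fun r hr => by
      obtain ⟨q, hq1, hq⟩ := hRd r (interior_subset hr)
      rw [hq.deriv]; exact hq1)
    _ (left_mem_Icc.mpr hlt2.le) _ (right_mem_Icc.mpr hlt2.le) hlt2.le
  have hRs : R (psi a B s).re = (A s).re := by
    rw [hR]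
    show (A (χ (((psi a B s).re:ℂ) + Y * I))).re = _
    rw [hY, Complex.re_add_im, hleft s hs]
  have hRt : R (psi a B t).re = (A t).re := by
    rw [hR]
    show (A (χ (((psi a B t).re:ℂ) + Y * I))).re = _
    rw [hl, Complex.re_add_im, hleft t ht]
  rw [hRs, hRt] at hmvt
  linarith

end Pool.Agent.Harm938
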