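import Pool.Agent.Harm938.Data

open Complex Set Filter Topology

namespace Pool.Agent.Harm938

/-! ### Continuity up to the real axis -/

theorem log_cw {s : ℂ} (hs : 0 ≤ s.im) (h0 : s ≠ 0) :
    ContinuousWithinAt Complex.log {z : ℂ | 0 ≤ z.im} s := by
  rcases lt_or_eq_of_le hs with h | h
  · exact (continuousAt_clog (mem_slit h)).continuousWithinAt
  · have hre : s.re ≠ 0 := by
      intro h2
      exact h0 (Complex.ext h2 h.symm)
    rcases lt_or_gt_of_ne hre with h2 | h2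
    · exact continuousWithinAt_log_of_re_neg_of_im_zero h2 h.symm
    · exact (continuousAt_clog (Or.inl h2)).continuousWithinAt

theorem psi_cw (a B : ℝ) {s : ℂ} (hs : 0 ≤ s.im) (h0 : s ≠ 0) :
    ContinuousWithinAt (psi a B) {z : ℂ | 0 ≤ z.im} s := by
  unfold psi
  exact (Continuous.continuousWithinAt (by fun_prop)).sub (log_cw hs h0)

theorem UH_sub : UH ⊆ {z : ℂ | 0 ≤ z.im} := by
  intro z hz
  have h : 0 < z.im := hz
  exact h.le

theorem A1_tendsto (m₁ m₂ : ℝ) {t : ℝ} (ht : t ≠ 0) :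
    Tendsto (fun s => (A1 m₁ m₂ s).re) (𝓝[UH] (t:ℂ)) (𝓝 (A1 m₁ m₂ t).re) := by
  have ht0 : (t:ℂ) ≠ 0 := by exact_mod_cast ht
  have hlog := log_cw (s := (t:ℂ)) (by simp) ht0
  have hpsi := psi_cw 1 (81/2) (s := (t:ℂ)) (by simp) ht0
  have hid : ContinuousWithinAt (fun s : ℂ => s) {z : ℂ | 0 ≤ z.im} (t:ℂ) :=
    continuous_id.continuousWithinAt
  have hinv : ContinuousWithinAt (fun s : ℂ => s⁻¹) {z : ℂ | 0 ≤ z.im} (t:ℂ) :=
    (continuousAt_inv₀ ht0).continuousWithinAt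
  have hA : ContinuousWithinAt (A1 m₁ m₂) {z : ℂ | 0 ≤ z.im} (t:ℂ) := by
    unfold A1
    exact (hpsi.add (continuousWithinAt_const.mul (continuousWithinAt_const.mul
      ((hid.add (continuousWithinAt_const.mul hlog)).add hinv)))).sub
      (Continuous.continuousWithinAt (by fun_prop))
  have h2 : ContinuousWithinAt (fun s => (A1 m₁ m₂ s).re) {z : ℂ | 0 ≤ z.im} (t:ℂ) :=
    Complex.continuous_re.continuousAt.comp_continuousWithinAt hA
  exact h2.mono_left (nhdsWithin_mono _ UH_sub)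

theorem A2_tendsto (m₁ m₂ C : ℝ) {t : ℝ} (ht : t ≠ 0) (ht1 : t ≠ 1/80) (ht2 : t ≠ -162) :
    Tendsto (fun s => (A2 m₁ m₂ C s).re) (𝓝[UH] (t:ℂ)) (𝓝 (A2 m₁ m₂ C t).re) := by
  have ht0 : (t:ℂ) ≠ 0 := by exact_mod_cast ht
  have hlog := log_cw (s := (t:ℂ)) (by simp) ht0
  have hpsi := psi_cw aa BB (s := (t:ℂ)) (by simp) ht0
  have hid : ContinuousWithinAt (fun s : ℂ => s) {z : ℂ | 0 ≤ z.im} (t:ℂ) :=
    continuous_id.continuousWithinAt
  have e1 : ∀ s : ℂ, (s - 1/80).im = s.im := by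
    intro s
    have : (s - 1/80) = s - ((1/80 : ℝ):ℂ) := by push_cast; ring
    rw [this, sub_im, ofReal_im, sub_zero]
  have e2 : ∀ s : ℂ, (s + 162).im = s.im := by
    intro s
    have : (s + 162) = s + ((162 : ℝ):ℂ) := by push_cast; ring
    rw [this, add_im, ofReal_im, add_zero]
  have hlog1 : ContinuousWithinAt (fun s : ℂ => Complex.log (s - 1/80)) {z : ℂ | 0 ≤ z.im} (t:ℂ) := by
    have h1 : ContinuousWithinAt Complex.log {z : ℂ | 0 ≤ z.im} ((t:ℂ) - 1/80) := by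
      apply log_cw
      · rw [e1]; simp
      · intro h
        apply ht1
        have h' : (t:ℂ) = ((1/80 : ℝ) : ℂ) := by push_cast; linear_combination h
        exact_mod_cast h'
    exact ContinuousWithinAt.comp (f := fun s : ℂ => s - 1/80) h1
      (Continuous.continuousWithinAt (by fun_prop)) (fun z hz => by
        show 0 ≤ (z - 1/80).im
        rw [e1]; exact hz)
  have hlog2 : ContinuousWithinAt (fun s : ℂ => Complex.log (s + 162)) {z : ℂ | 0 ≤ z.im} (t:ℂ) := by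
    have h1 : ContinuousWithinAt Complex.log {z : ℂ | 0 ≤ z.im} ((t:ℂ) + 162) := by
      apply log_cw
      · rw [e2]; simp
      · intro h
        apply ht2
        have h' : (t:ℂ) = ((-162 : ℝ) : ℂ) := by push_cast; linear_combination h
        exact_mod_cast h'
    exact ContinuousWithinAt.comp (f := fun s : ℂ => s + 162) h1
      (Continuous.continuousWithinAt (by fun_prop)) (fun z hz => by
        show 0 ≤ (z + 162).im
        rw [e2]; exact hz)
  have cst : ∀ c : ℂ, ContinuousWithinAt (fun _ : ℂ => c) {z : ℂ | 0 ≤ z.im} (t:ℂ) :=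
    fun c => continuousWithinAt_const
  have hA : ContinuousWithinAt (A2 m₁ m₂ C) {z : ℂ | 0 ≤ z.im} (t:ℂ) := by
    unfold A2
    exact (((cst _).add hpsi).add ((cst _).mul ((cst _).mul (((cst _).mul hpsi).add
      ((cst _).mul ((((cst _).mul hid).add ((cst _).mul hlog1)).add ((cst _).mul hlog))))))).add
      ((cst _).mul ((cst _).mul (((cst _).mul hpsi).add
      ((cst _).mul ((((cst _).mul hid).add ((cst _).mul hlog2)).sub ((cst _).mul hlog))))))
  have h2 : ContinuousWithinAt (fun s => (A2 m₁ m₂ C s).re) {z : ℂ | 0 ≤ z.im} (t:ℂ) :=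
    Complex.continuous_re.continuousAt.comp_continuousWithinAt hA
  exact h2.mono_left (nhdsWithin_mono _ UH_sub)

/-! ### real parts -/

theorem A1_re (m₁ m₂ : ℝ) (s : ℂ) : (A1 m₁ m₂ s).re = (psi 1 (81/2) s).re
    - m₁ * (s.im + (81/2) * Complex.arg s + (s⁻¹).im)
    + m₂ * (s^3/3 + (81/2) * (s^2/2) - s).im := by
  unfold A1
  have e : ((81:ℂ)/2 * Complex.log s).im = (81/2) * Complex.arg s := by
    have : (81:ℂ)/2 = ((81/2 : ℝ) : ℂ) := by push_cast; ring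
    rw [this, im_ofReal_mul, Complex.log_im]
  rw [sub_re, add_re, re_ofReal_mul, re_ofReal_mul, I_mul_re, I_mul_re, add_im, add_im, e]
  ring

theorem A2_re (m₁ m₂ C : ℝ) (s : ℂ) : (A2 m₁ m₂ C s).re = C + (psi aa BB s).re
    - m₁ * ((1/160) * (psi aa BB s).im + DD * (aa * s.im + q0 * Complex.arg (s - 1/80)
        + 80 * Complex.arg s))
    - m₂ * (-160 * (psi aa BB s).im + 25922 * (aa * s.im + qi * Complex.arg (s + 162)
        - (1/162) * Complex.arg s)) := by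
  have e : A2 m₁ m₂ C s = (C:ℂ) + psi aa BB s
    + (m₁:ℂ) * (I * (((1/160 : ℝ) : ℂ) * psi aa BB s
        + (DD:ℂ) * ((aa:ℂ) * s + (q0:ℂ) * Complex.log (s - 1/80) + ((80:ℝ):ℂ) * Complex.log s)))
    + (m₂:ℂ) * (I * (((-160:ℝ):ℂ) * psi aa BB s
        + ((25922:ℝ):ℂ) * ((aa:ℂ) * s + (qi:ℂ) * Complex.log (s + 162) - ((1/162:ℝ):ℂ) * Complex.log s))) := by
    unfold A2; push_cast; ring
  rw [e]
  simp only [add_re, re_ofReal_mul, I_mul_re, add_im, sub_im, im_ofReal_mul, Complex.log_im,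
    ofReal_re]
  ring

/-- real potential -/
noncomputable def rpsi (a B t : ℝ) : ℝ := a * t^2/2 + B * t - Real.log t

theorem psi_re_real (a B t : ℝ) : (psi a B t).re = rpsi a B t := by
  have h := psi_re a B t 0
  have e : (t:ℂ) + (0:ℝ) * I = t := by push_cast; ring
  rw [e] at h
  rw [h, rpsi, Complex.norm_real, Real.norm_eq_abs, Real.log_abs]
  ring

theorem psi_im_real (a B t : ℝ) : (psi a B t).im = - Complex.arg (t:ℂ) := by
  have h := psi_im a B t 0
  have e : (t:ℂ) + (0:ℝ) * I = t := by push_cast; ring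
  rw [e] at h
  rw [h]; ring

theorem A1_re_real (m₁ m₂ t : ℝ) : (A1 m₁ m₂ t).re = rpsi 1 (81/2) t
    - m₁ * ((81/2) * Complex.arg (t:ℂ)) := by
  rw [A1_re, psi_re_real]
  have e1 : ((t:ℂ)^3/3 + (81/2) * ((t:ℂ)^2/2) - t).im = 0 := by
    have : (t:ℂ)^3/3 + (81/2) * ((t:ℂ)^2/2) - t = ((t^3/3 + (81/2)*(t^2/2) - t : ℝ) : ℂ) := by
      push_cast; ring
    rw [this, ofReal_im]
  have e2 : ((t:ℂ)⁻¹).im = 0 := by rw [← ofReal_inv, ofReal_im]
  rw [e1, e2, ofReal_im]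
  ring

theorem A2_re_real (m₁ m₂ C t : ℝ) : (A2 m₁ m₂ C t).re = C + rpsi aa BB t
    - m₁ * (-(1/160) * Complex.arg (t:ℂ) + DD * (q0 * Complex.arg ((t - 1/80 : ℝ) : ℂ)
        + 80 * Complex.arg (t:ℂ)))
    - m₂ * (160 * Complex.arg (t:ℂ) + 25922 * (qi * Complex.arg ((t + 162 : ℝ) : ℂ)
        - (1/162) * Complex.arg (t:ℂ))) := by
  rw [A2_re, psi_re_real, psi_im_real, ofReal_im]
  have e1 : (t:ℂ) - 1/80 = ((t - 1/80 : ℝ) : ℂ) := by push_cast; ring
  have e2 : (t:ℂ) + 162 = ((t + 162 : ℝ) : ℂ) := by push_cast; ring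
  rw [e1, e2]
  ring

theorem mu0_eq : mu0 = ((-1:ℝ):ℂ) + ((1:ℝ):ℂ) * I := by unfold mu0; push_cast; ring

theorem psi_im_mu0 (a B : ℝ) : (psi a B mu0).im = B - a - 3 * Real.pi/4 := by
  have h := psi_im a B (-1) 1
  rw [← mu0_eq, arg_mu0] at h
  rw [h]; ring

theorem psi_re_mu0 (a B : ℝ) : (psi a B mu0).re = -B - Real.log ‖mu0‖ := by
  have h := psi_re a B (-1) 1
  rw [← mu0_eq] at h
  rw [h]; ring

theorem psi1_im_mu0 : (psi 1 (81/2) mu0).im = Y0 := by
  rw [psi_im_mu0, Y0]; ring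

theorem psi2_im_mu0 : (psi aa BB mu0).im = Y0 := by
  rw [psi_im_mu0, Y0]; unfold aa BB; ring

theorem mu0_sq : mu0^2 = -2 * I := by
  unfold mu0
  linear_combination Complex.I_sq

theorem A1_re_mu0 (m₁ m₂ : ℝ) : (A1 m₁ m₂ mu0).re = (psi 1 (81/2) mu0).re
    - m₁ * (1/2 + (81/2) * (3 * Real.pi/4)) + m₂ * (-1/3 - 81/2) := by
  rw [A1_re, arg_mu0, mu0_im]
  have e1 : (mu0⁻¹).im = -1/2 := by
    rw [Complex.inv_im, mu0_im, Complex.normSq_apply, mu0_re, mu0_im]; norm_num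
  have e2 : (mu0^3/3 + (81/2) * (mu0^2/2) - mu0).im = -1/3 - 81/2 := by
    have h3 : mu0^3 = 2 + 2 * I := by
      have : mu0^3 = mu0^2 * mu0 := by ring
      rw [this, mu0_sq]; unfold mu0
      linear_combination (-2) * Complex.I_sq
    have : mu0^3/3 + (81/2) * (mu0^2/2) - mu0
        = ((2/3 + 1 : ℝ) : ℂ) + ((-1/3 - 81/2 : ℝ) : ℂ) * I := by
      rw [h3, mu0_sq]; unfold mu0; push_cast; ring
    rw [this, add_im, ofReal_im, im_ofReal_mul, I_im]; ring
  rw [e1, e2]; ring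

theorem A2_re_mu0 (m₁ m₂ C : ℝ) : (A2 m₁ m₂ C mu0).re = C + (psi aa BB mu0).re
    - m₁ * ((1/160) * Y0 + DD * (aa + q0 * (3 * Real.pi/4 + phi) + 80 * (3 * Real.pi/4)))
    - m₂ * (-160 * Y0 + 25922 * (aa + qi * phi - (1/162) * (3 * Real.pi/4))) := by
  rw [A2_re, arg_mu0, arg_mu0_sub, arg_mu0_add, mu0_im, psi2_im_mu0]
  ring

/-! ### the tips -/

theorem exists_tips {a : ℝ} (B : ℝ) (ha : 0 < a) :
    ∃ c d : ℝ, c < 0 ∧ 0 < d ∧ a * c^2 + B * c - 1 = 0 ∧ a * d^2 + B * d - 1 = 0 := by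
  set S := Real.sqrt (B^2 + 4 * a) with hS
  have hS2 : S^2 = B^2 + 4 * a := Real.sq_sqrt (by positivity)
  have hSB : |B| < S := by
    rw [hS]
    apply Real.lt_sqrt_of_sq_lt
    rw [sq_abs]; linarith
  rw [abs_lt] at hSB
  refine ⟨(-B - S)/(2*a), (-B + S)/(2*a), ?_, ?_, ?_, ?_⟩
  · apply div_neg_of_neg_of_pos <;> linarith
  · apply div_pos <;> linarith
  · field_simp
    linear_combination hS2
  · field_simp
    linear_combination hS2

theorem lt_d {a B d x : ℝ} (ha : 0 < a) (hd : 0 < d) (hd0 : a * d^2 + B * d - 1 = 0) (hx : 0 < x)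
    (hfx : a * x^2 + B * x - 1 < 0) : x < d := by
  by_contra hcon
  push Not at hcon
  have h1 : 0 < a * d + B := by
    by_contra h
    push Not at h
    have : (a * d + B) * d = 1 := by linarith
    nlinarith
  have h2 : 0 ≤ (x - d) * (a * (x + d) + B) := by
    apply mul_nonneg (by linarith)
    nlinarith [mul_pos ha hx]
  nlinarith

theorem lt_c {a B c x : ℝ} (ha : 0 < a) (hc : c < 0) (hc0 : a * c^2 + B * c - 1 = 0) (hx : x < 0)
    (hfx : 0 < a * x^2 + B * x - 1) : x < c := by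
  by_contra hcon
  push Not at hcon
  have h1 : a * c + B < 0 := by
    by_contra h
    push Not at h
    have : (a * c + B) * c = 1 := by linarith
    nlinarith
  have h2 : (x - c) * (a * (x + c) + B) ≤ 0 := by
    apply mul_nonpos_of_nonneg_of_nonpos (by linarith)
    nlinarith [mul_pos ha (neg_pos.mpr hx)]
  nlinarith

theorem rpsi_min {a B e t : ℝ} (ha : 0 < a) (he0 : a * e^2 + B * e - 1 = 0) (het : 0 < t * e) :
    rpsi a B e ≤ rpsi a B t := by
  have he : e ≠ 0 := by rintro rfl; simp at het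
  have ht : t ≠ 0 := by rintro rfl; simp at het
  have hte : 0 < t / e := by
    have : t / e = (t * e) / (e^2) := by field_simp
    rw [this]
    apply div_pos het; positivity
  have hlog := Real.log_le_sub_one_of_pos hte
  rw [Real.log_div ht he] at hlog
  unfold rpsi
  have hB : B = 1/e - a * e := by field_simp; linarith
  have h2 : t / e - 1 = (t - e) * (1/e) := by field_simp
  have h3 : 0 ≤ a * (t - e)^2 := by positivity
  rw [hB]
  rw [h2] at hlog
  nlinarith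

theorem aa_lt : aa < 1 := by unfold aa; norm_num
theorem aa_pos : 0 < aa := by unfold aa; norm_num

/-- The matching of the tips. -/
theorem matching {c₁ d₁ c₂ d₂ : ℝ} (hc1 : c₁ < 0) (hd1 : 0 < d₁) (hc2 : c₂ < 0) (hd2 : 0 < d₂)
    (hc20 : aa * c₂^2 + BB * c₂ - 1 = 0) (hd20 : aa * d₂^2 + BB * d₂ - 1 = 0) :
    ∃ m₁ m₂ C : ℝ, 0 < m₁ ∧ 0 < m₂ ∧ (A1 m₁ m₂ mu0).re = (A2 m₁ m₂ C mu0).re ∧
      (A1 m₁ m₂ d₁).re = (A2 m₁ m₂ C d₂).re ∧ (A1 m₁ m₂ c₁).re = (A2 m₁ m₂ C c₂).re := by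
  have haa := aa_lt
  have hmin1 := rpsi_min (t := d₁) aa_pos hd20 (mul_pos hd1 hd2)
  have hmin2 := rpsi_min (t := c₁) aa_pos hc20 (mul_pos_of_neg_of_neg hc1 hc2)
  have hdiff : ∀ t : ℝ, rpsi 1 (81/2) t - rpsi aa BB t = (1 - aa) * (t^2/2 + t) := by
    intro t
    unfold rpsi aa BB
    ring
  have hbase : (psi aa BB mu0).re - (psi 1 (81/2) mu0).re = 1 - aa := by
    rw [psi_re_mu0, psi_re_mu0]; unfold aa BB; ring
  set Kd : ℝ := rpsi 1 (81/2) d₁ - (psi 1 (81/2) mu0).re - rpsi aa BB d₂ + (psi aa BB mu0).re with hKd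
  set Kc : ℝ := rpsi 1 (81/2) c₁ - (psi 1 (81/2) mu0).re - rpsi aa BB c₂ + (psi aa BB mu0).re with hKc
  have hKdpos : 0 < Kd := by
    have h1 := hdiff d₁
    nlinarith [sq_nonneg (d₁ + 1)]
  have hKcpos : 0 < Kc := by
    have h1 := hdiff c₁
    nlinarith [sq_nonneg (c₁ + 1)]
  obtain ⟨m₁, m₂, hm1, hm2, E1, E2⟩ := masses hKdpos hKcpos
  refine ⟨m₁, m₂, (A1 m₁ m₂ mu0).re - (A2 m₁ m₂ 0 mu0).re, hm1, hm2, ?_, ?_, ?_⟩
  · rw [A2_re_mu0, A2_re_mu0]; ring
  · have argd1 : Complex.arg (d₁:ℂ) = 0 := Complex.arg_ofReal_of_nonneg hd1.le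
    have argd2 : Complex.arg (d₂:ℂ) = 0 := Complex.arg_ofReal_of_nonneg hd2.le
    have h80 : 1/80 < d₂ := lt_d aa_pos hd2 hd20 (by norm_num) (by unfold aa BB; norm_num)
    have argd3 : Complex.arg ((d₂ - 1/80 : ℝ) : ℂ) = 0 :=
      Complex.arg_ofReal_of_nonneg (by linarith)
    have argd4 : Complex.arg ((d₂ + 162 : ℝ) : ℂ) = 0 :=
      Complex.arg_ofReal_of_nonneg (by linarith)
    rw [A1_re_real, A2_re_real, A1_re_mu0, A2_re_mu0, argd1, argd2, argd3, argd4]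
    unfold Kad Kbd at E1
    linear_combination E1
  · have argc1 : Complex.arg (c₁:ℂ) = Real.pi := Complex.arg_ofReal_of_neg hc1
    have argc2 : Complex.arg (c₂:ℂ) = Real.pi := Complex.arg_ofReal_of_neg hc2
    have h162 : -162 < c₂ := lt_c aa_pos hc2 hc20 (by norm_num) (by unfold aa BB; norm_num)
    have argc3 : Complex.arg ((c₂ - 1/80 : ℝ) : ℂ) = Real.pi :=
      Complex.arg_ofReal_of_neg (by linarith)
    have argc4 : Complex.arg ((c₂ + 162 : ℝ) : ℂ) = 0 :=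
      Complex.arg_ofReal_of_nonneg (by linarith)
    rw [A1_re_real, A2_re_real, A1_re_mu0, A2_re_mu0, argc1, argc2, argc3, argc4]
    unfold Kac Kbc Kad Kbd at E2
    linear_combination E2

end Pool.Agent.Harm938
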