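import Pool.Agent.Harm938.Match

open Complex Set Filter Topology Metric

namespace Pool.Agent.Harm938

/-! ### The Möbius map from the disc to the half plane -/

/-- the Möbius map of the unit disc onto the upper half plane with `0 ↦ -1 + i`. -/
noncomputable def mob (w : ℂ) : ℂ := (mu0 + (1 + I) * w) / (1 - w)

theorem one_sub_ne {w : ℂ} (hw : ‖w‖ < 1) : 1 - w ≠ 0 := by
  intro h
  have : w = 1 := by linear_combination -h
  rw [this, norm_one] at hw
  exact lt_irrefl _ hw

theorem mob_zero : mob 0 = mu0 := by simp [mob]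

theorem mob_im {w : ℂ} (hw : ‖w‖ < 1) : 0 < (mob w).im := by
  have hne := one_sub_ne hw
  have hn : 0 < Complex.normSq (1 - w) := Complex.normSq_pos.mpr hne
  have hw2 : w.re^2 + w.im^2 < 1 := by
    have h1 : ‖w‖^2 < 1 := by
      have := norm_nonneg w
      nlinarith
    rw [← Complex.normSq_eq_norm_sq, Complex.normSq_apply] at h1
    linarith
  have h : (mob w).im = (1 - (w.re^2 + w.im^2)) / Complex.normSq (1 - w) := by
    unfold mob mu0
    rw [Complex.div_im]
    simp only [add_im, add_re, mul_im, mul_re, sub_re, sub_im, one_re, one_im, I_re, I_im,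
      neg_re, neg_im]
    field_simp
    ring
  rw [h]
  apply div_pos _ hn
  linarith

theorem mob_deriv {w : ℂ} (hw : ‖w‖ < 1) : HasDerivAt mob (2 * I / (1 - w)^2) w := by
  have hne := one_sub_ne hw
  have h1 : HasDerivAt (fun w : ℂ => mu0 + (1 + I) * w) (1 + I) w := by
    have := ((hasDerivAt_id w).const_mul (1 + I)).const_add mu0
    rw [mul_one] at this
    exact this
  have h2 : HasDerivAt (fun w : ℂ => 1 - w) (-1) w := by
    have := (hasDerivAt_id w).const_sub 1
    exact this
  have h3 := h1.div h2 hne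
  have e : ((1 + I) * (1 - w) - (mu0 + (1 + I) * w) * (-1)) / (1 - w)^2 = 2 * I / (1 - w)^2 := by
    congr 1
    unfold mu0; ring
  rw [e] at h3
  exact h3

theorem mob_injOn : InjOn mob (ball 0 1) := by
  intro w hw z hz h
  have hw' : ‖w‖ < 1 := by simpa using hw
  have hz' : ‖z‖ < 1 := by simpa using hz
  have h1 := one_sub_ne hw'
  have h2 := one_sub_ne hz'
  unfold mob at h
  rw [div_eq_div_iff h1 h2] at h
  have h3 : (2 * I) * (w - z) = 0 := by
    unfold mu0 at h
    linear_combination h
  have h4 : (2 * I) ≠ 0 := by simp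
  have := (mul_eq_zero.mp h3).resolve_left h4
  exact sub_eq_zero.mp this

theorem mob_surjOn {s : ℂ} (hs : 0 < s.im) : ∃ w : ℂ, ‖w‖ < 1 ∧ mob w = s := by
  have hne : s + 1 + I ≠ 0 := by
    intro h
    have := congrArg Complex.im h
    simp at this
    linarith
  refine ⟨(s - mu0) / (s + 1 + I), ?_, ?_⟩
  · rw [norm_div, div_lt_one (norm_pos_iff.mpr hne)]
    apply lt_of_pow_lt_pow_left₀ 2 (norm_nonneg _)
    rw [← Complex.normSq_eq_norm_sq, ← Complex.normSq_eq_norm_sq, Complex.normSq_apply,
      Complex.normSq_apply]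
    simp only [sub_re, sub_im, add_re, add_im, one_re, one_im, I_re, I_im, mu0_re, mu0_im]
    nlinarith
  · unfold mob
    have h1 : 1 - (s - mu0) / (s + 1 + I) = 2 * I / (s + 1 + I) := by
      unfold mu0
      field_simp
      ring
    have h4 : (2 * I) ≠ 0 := by simp
    rw [h1]
    unfold mu0
    field_simp
    ring

/-! ### The automorphism `T` of the half plane -/

/-- the automorphism `T` of the upper half plane fixing `-1 + i`. -/
noncomputable def TT (s : ℂ) : ℂ := (162 * s + 2) / (160 - s)

theorem den_ne {s : ℂ} (hs : 0 < s.im) : 160 - s ≠ 0 := by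
  intro h
  have h2 : s = ((160:ℝ):ℂ) := by push_cast; linear_combination -h
  rw [h2, ofReal_im] at hs
  exact lt_irrefl _ hs

theorem TT_im {s : ℂ} (hs : 0 < s.im) : 0 < (TT s).im := by
  have hn : 0 < Complex.normSq (160 - s) := Complex.normSq_pos.mpr (den_ne hs)
  have h : (TT s).im = 25922 * s.im / Complex.normSq (160 - s) := by
    unfold TT
    have e1 : (162 * s + 2 : ℂ) = ((162 * s.re + 2 : ℝ) : ℂ) + ((162 * s.im : ℝ):ℂ) * I := by
      apply Complex.ext <;> simp
    have e2 : (160 - s : ℂ) = ((160 - s.re : ℝ) : ℂ) + ((-s.im : ℝ):ℂ) * I := by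
      apply Complex.ext <;> simp
    rw [Complex.div_im]
    have r1 : (162 * s + 2 : ℂ).im = 162 * s.im := by rw [e1]; simp
    have r2 : (162 * s + 2 : ℂ).re = 162 * s.re + 2 := by rw [e1]; simp
    have r3 : (160 - s : ℂ).im = - s.im := by rw [e2]; simp
    have r4 : (160 - s : ℂ).re = 160 - s.re := by rw [e2]; simp
    rw [r1, r2, r3, r4]
    field_simp
    ring
  rw [h]
  positivity

theorem TT_deriv {s : ℂ} (hs : 0 < s.im) : HasDerivAt TT (25922 / (160 - s)^2) s := by
  have hne := den_ne hs
  have h1 : HasDerivAt (fun w : ℂ => 162 * w + 2) 162 s := by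
    have := ((hasDerivAt_id s).const_mul (162:ℂ)).add_const 2
    rw [mul_one] at this
    exact this
  have h2 : HasDerivAt (fun w : ℂ => 160 - w) (-1) s := by
    have := (hasDerivAt_id s).const_sub 160
    exact this
  have h3 := h1.div h2 hne
  have e : (162 * (160 - s) - (162 * s + 2) * (-1)) / (160 - s)^2 = 25922 / (160 - s)^2 := by
    congr 1
    ring
  rw [e] at h3
  exact h3

theorem TT_injOn : InjOn TT UH := by
  intro w hw z hz h
  have h1 := den_ne (s := w) hw
  have h2 := den_ne (s := z) hz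
  unfold TT at h
  rw [div_eq_div_iff h1 h2] at h
  have h3 : (25922:ℂ) * (w - z) = 0 := by
    linear_combination h
  have h4 : (25922:ℂ) ≠ 0 := by norm_num
  have := (mul_eq_zero.mp h3).resolve_left h4
  exact sub_eq_zero.mp this

theorem TT_surj {s : ℂ} (hs : 0 < s.im) : ∃ w : ℂ, 0 < w.im ∧ TT w = s := by
  have hne : s + 162 ≠ 0 := by
    intro h
    have h2 : s = ((-162:ℝ):ℂ) := by push_cast; linear_combination h
    rw [h2, ofReal_im] at hs
    exact lt_irrefl _ hs
  have hn : 0 < Complex.normSq (s + 162) := Complex.normSq_pos.mpr hne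
  have him : 0 < ((160 * s - 2) / (s + 162)).im := by
    have h : ((160 * s - 2) / (s + 162)).im = 25922 * s.im / Complex.normSq (s + 162) := by
      have e1 : (160 * s - 2 : ℂ) = ((160 * s.re - 2 : ℝ) : ℂ) + ((160 * s.im : ℝ):ℂ) * I := by
        apply Complex.ext <;> simp
      have e2 : (s + 162 : ℂ) = ((s.re + 162 : ℝ) : ℂ) + ((s.im : ℝ):ℂ) * I := by
        apply Complex.ext <;> simp
      rw [Complex.div_im]
      have r1 : (160 * s - 2 : ℂ).im = 160 * s.im := by rw [e1]; simp
      have r2 : (160 * s - 2 : ℂ).re = 160 * s.re - 2 := by rw [e1]; simp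
      have r3 : (s + 162 : ℂ).im = s.im := by rw [e2]; simp
      have r4 : (s + 162 : ℂ).re = s.re + 162 := by rw [e2]; simp
      rw [r1, r2, r3, r4]
      field_simp
      ring
    rw [h]
    positivity
  refine ⟨(160 * s - 2) / (s + 162), him, ?_⟩
  have hd := den_ne him
  unfold TT
  rw [div_eq_iff hd]
  field_simp
  ring

theorem TT_mu0 : TT mu0 = mu0 := by
  have h := den_ne (s := mu0) (by rw [mu0_im]; norm_num)
  unfold TT
  rw [div_eq_iff h]
  unfold mu0
  linear_combination Complex.I_sq

theorem p2_TT (m₁ m₂ : ℝ) {s : ℂ} (hs : 0 < s.im) : p2 m₁ m₂ (TT s) = p1 m₁ m₂ s := by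
  have hs0 := ne_zero_of_im hs
  have hd := den_ne hs
  unfold p2 p1
  have e1 : TT s - 1/80 = 12961 * s / (80 * (160 - s)) := by
    unfold TT; field_simp; ring
  have e2 : TT s + 162 = 25922 / (160 - s) := by
    unfold TT; field_simp; ring
  rw [e1, e2]
  unfold DD
  push_cast
  field_simp
  ring

/-- the derivative relation at the base point. -/
theorem dpsi_rel : (25922 / (160 - mu0)^2) * dpsi aa BB mu0
    = ((1036880/1037283 : ℝ) : ℂ) * dpsi 1 (81/2) mu0 := by
  have h := den_ne (s := mu0) (by rw [mu0_im]; norm_num)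
  have hinv : mu0⁻¹ = -(1 + I)/2 := by
    apply inv_eq_of_mul_eq_one_left
    unfold mu0
    linear_combination (-1/2) * Complex.I_sq
  have e1 : dpsi aa BB mu0 = 40 + (1040000/1037283) * I := by
    unfold dpsi
    rw [hinv]
    unfold mu0 aa BB
    push_cast
    ring
  have e2 : dpsi 1 (81/2) mu0 = 40 + (3/2) * I := by
    unfold dpsi
    rw [hinv]
    unfold mu0
    push_cast
    ring
  have e3 : (160 - mu0)^2 = 25920 - 322 * I := by
    unfold mu0
    linear_combination Complex.I_sq
  have h2 : (25920 - 322 * I : ℂ) ≠ 0 := by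
    rw [← e3]; exact pow_ne_zero 2 h
  rw [e3, e1, e2, div_mul_eq_mul_div, div_eq_iff h2]
  push_cast
  linear_combination (1036880/1037283 : ℂ) * (3/2) * 322 * Complex.I_sq

end Pool.Agent.Harm938
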