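import Pool.Agent.Harm938.Topo

open Complex Set Filter Topology

namespace Pool.Agent.Harm938

/-! ### Numerical facts -/

theorem arctan_lower {u : ℝ} (hu : 0 ≤ u) : u - u^3/3 ≤ Real.arctan u := by
  have h : ∀ x : ℝ, HasDerivAt (fun x : ℝ => Real.arctan x - (x - x^3/3)) (1/(1+x^2) - (1 - x^2)) x := by
    intro x
    have h3 : HasDerivAt (fun x : ℝ => x^3/3) (x^2) x := by
      have := (hasDerivAt_pow 3 x).div_const 3
      have e : x^2 = ((3:ℕ):ℝ) * x^(3-1)/3 := by norm_num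
      rw [e]; exact this
    exact (Real.hasDerivAt_arctan x).sub ((hasDerivAt_id x).sub h3)
  have hmono : MonotoneOn (fun x : ℝ => Real.arctan x - (x - x^3/3)) (Ici 0) := by
    apply monotoneOn_of_deriv_nonneg (convex_Ici 0)
    · exact fun x _ => (h x).continuousAt.continuousWithinAt
    · exact fun x _ => (h x).differentiableAt.differentiableWithinAt
    · intro x _
      rw [(h x).deriv]
      have : 1/(1+x^2) - (1 - x^2) = x^4/(1+x^2) := by field_simp; ring
      rw [this]; positivity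
  have := hmono (show (0:ℝ) ∈ Ici 0 by simp) (show u ∈ Ici (0:ℝ) from hu) hu
  simp only [Real.arctan_zero] at this
  linarith

theorem arctan_upper {u : ℝ} (hu : 0 ≤ u) : Real.arctan u ≤ u - u^3/3 + u^5/5 := by
  have h : ∀ x : ℝ, HasDerivAt (fun x : ℝ => (x - x^3/3 + x^5/5) - Real.arctan x)
          ((1 - x^2 + x^4) - 1/(1+x^2)) x := by
    intro x
    have h3 : HasDerivAt (fun x : ℝ => x^3/3) (x^2) x := by
      have := (hasDerivAt_pow 3 x).div_const 3
      have e : x^2 = ((3:ℕ):ℝ) * x^(3-1)/3 := by norm_num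
      rw [e]; exact this
    have h5 : HasDerivAt (fun x : ℝ => x^5/5) (x^4) x := by
      have := (hasDerivAt_pow 5 x).div_const 5
      have e : x^4 = ((5:ℕ):ℝ) * x^(5-1)/5 := by norm_num
      rw [e]; exact this
    exact (((hasDerivAt_id x).sub h3).add h5).sub (Real.hasDerivAt_arctan x)
  have hmono : MonotoneOn (fun x : ℝ => (x - x^3/3 + x^5/5) - Real.arctan x) (Ici 0) := by
    apply monotoneOn_of_deriv_nonneg (convex_Ici 0)
    · exact fun x _ => (h x).continuousAt.continuousWithinAt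
    · exact fun x _ => (h x).differentiableAt.differentiableWithinAt
    · intro x _
      rw [(h x).deriv]
      have : (1 - x^2 + x^4) - 1/(1+x^2) = x^6/(1+x^2) := by field_simp; ring
      rw [this]; positivity
  have := hmono (show (0:ℝ) ∈ Ici 0 by simp) (show u ∈ Ici (0:ℝ) from hu) hu
  simp only [Real.arctan_zero] at this
  linarith

theorem arg_eq_arctan {z : ℂ} (hz : 0 < z.re) : Complex.arg z = Real.arctan (z.im / z.re) := by
  rw [← Complex.tan_arg]
  have h : |Complex.arg z| < Real.pi / 2 := by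
    rw [Complex.abs_arg_lt_pi_div_two_iff]; left; exact hz
  rw [abs_lt] at h
  rw [Real.arctan_tan (by linarith [h.1]) h.2]

/-- the base point -/
noncomputable def mu0 : ℂ := -1 + I

theorem mu0_re : mu0.re = -1 := by simp [mu0]
theorem mu0_im : mu0.im = 1 := by simp [mu0]

theorem arg_mu0 : Complex.arg mu0 = 3 * Real.pi / 4 := by
  have h1 : Complex.arg (-mu0) = Complex.arg mu0 - Real.pi :=
    Complex.arg_neg_eq_arg_sub_pi_of_im_pos (by rw [mu0_im]; norm_num)
  have h2 : Complex.arg (-mu0) = -(Real.pi/4) := by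
    rw [arg_eq_arctan (by rw [neg_re, mu0_re]; norm_num), neg_re, neg_im, mu0_re, mu0_im]
    norm_num
  linarith

/-- `φ = arg(161+i)` -/
noncomputable def phi : ℝ := Complex.arg (161 + I)

theorem phi_eq : phi = Real.arctan (1/161) := by
  unfold phi
  rw [arg_eq_arctan (by simp)]
  simp

theorem phi_lower : (1/161 : ℝ) - (1/161)^3/3 ≤ phi := by
  rw [phi_eq]; exact arctan_lower (by norm_num)

theorem phi_upper : phi ≤ (1/161 : ℝ) - (1/161)^3/3 + (1/161)^5/5 := by
  rw [phi_eq]; exact arctan_upper (by norm_num)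

theorem arg_mu0_add : Complex.arg (mu0 + 162) = phi := by
  unfold phi mu0
  congr 1
  ring

theorem arg_mu0_sub : Complex.arg (mu0 - 1/80) = 3 * Real.pi / 4 + phi := by
  have h1 : mu0 - 1/80 = ((1/160 : ℝ) : ℂ) * (mu0 * (161 + I)) := by
    unfold mu0
    push_cast
    linear_combination (-1/160) * Complex.I_sq
  rw [h1, Complex.arg_real_mul _ (by norm_num)]
  have hne1 : mu0 ≠ 0 := by
    intro h; have := mu0_im; rw [h] at this; simp at this
  have hne2 : (161 + I : ℂ) ≠ 0 := by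
    intro h; have := congrArg Complex.im h; simp at this
  have h2 := phi_lower
  have h3 := phi_upper
  have h4 := Real.pi_gt_three
  rw [Complex.arg_mul hne1 hne2, arg_mu0]
  · rfl
  · rw [arg_mu0]
    change 3 * Real.pi/4 + phi ∈ _
    constructor
    · norm_num at h2; linarith
    · norm_num at h3; linarith

/-! ### The constants -/

/-- leading coefficient of `ψ₂`. -/
noncomputable def aa : ℝ := 80209/159582
/-- linear coefficient of `ψ₂`. -/
noncomputable def BB : ℝ := 3191849/79791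
/-- `ψ₂'(1/80)` -/
noncomputable def q0 : ℝ := aa * (1/80) + BB - 80
/-- `ψ₂'(-162)` -/
noncomputable def qi : ℝ := aa * (-162) + BB + 1/162
/-- residue constant -/
noncomputable def DD : ℝ := 12961/12800
/-- the common value of `Im ψ_j` at the base point. -/
noncomputable def Y0 : ℝ := 79/2 - 3 * Real.pi / 4

noncomputable def Kad : ℝ := 1/2 + (3 * Real.pi / 4) * (81/2) - (1/160) * Y0
  - DD * (aa + q0 * (3 * Real.pi / 4 + phi) + 80 * (3 * Real.pi / 4))
noncomputable def Kbd : ℝ := 1/3 + 81/2 + 160 * Y0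
  - 25922 * (aa + qi * phi - (1/162) * (3 * Real.pi / 4))
noncomputable def Kac : ℝ := Kad - (81/2) * Real.pi - Real.pi * (1/160 - DD * (q0 + 80))
noncomputable def Kbc : ℝ := Kbd - Real.pi * (25922/162 - 160)

theorem K_bounds : Kad < -(18/1000) ∧ -(19/1000) < Kad ∧ (31/100000) < Kac ∧ Kac < (33/100000) ∧
    (37/1000) < Kbd ∧ Kbd < (38/1000) ∧ Kbc < -(130/100000) ∧ -(133/100000) < Kbc := by
  have h1 := Real.pi_gt_d20
  have h2 := Real.pi_lt_d20
  have h3 := phi_lower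
  have h4 := phi_upper
  unfold Kbc Kac Kbd Kad qi q0 DD Y0 aa BB
  norm_num at h3 h4 ⊢
  refine ⟨?_, ?_, ?_, ?_, ?_, ?_, ?_, ?_⟩ <;> linarith

theorem solve2 {Kad Kac Kbd Kbc Kd Kc : ℝ} (h1 : Kad < 0) (h2 : 0 < Kac) (h3 : 0 < Kbd)
    (h4 : Kbc < 0) (hdet : 0 < Kad * Kbc - Kac * Kbd) (hd : 0 < Kd) (hc : 0 < Kc) :
    ∃ m₁ m₂ : ℝ, 0 < m₁ ∧ 0 < m₂ ∧ m₁ * Kad + m₂ * Kbd + Kd = 0 ∧ m₁ * Kac + m₂ * Kbc + Kc = 0 := by
  obtain ⟨Δ, hΔ⟩ : ∃ Δ, Δ = Kad * Kbc - Kac * Kbd := ⟨_, rfl⟩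
  rw [← hΔ] at hdet
  have hne := hdet.ne'
  refine ⟨(Kbd * Kc - Kbc * Kd) / Δ, (Kac * Kd - Kad * Kc) / Δ, ?_, ?_, ?_, ?_⟩
  · apply div_pos _ hdet
    nlinarith [mul_pos h3 hc, mul_pos (neg_pos.mpr h4) hd]
  · apply div_pos _ hdet
    nlinarith [mul_pos h2 hd, mul_pos (neg_pos.mpr h1) hc]
  · field_simp
    rw [hΔ]; ring
  · field_simp
    rw [hΔ]; ring

theorem det_pos : 0 < Kad * Kbc - Kac * Kbd := by
  obtain ⟨h1, h2, h3, h4, h5, h6, h7, h8⟩ := K_bounds
  have e1 : (18/1000) * (130/100000) ≤ Kad * Kbc := by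
    nlinarith
  have e2 : Kac * Kbd ≤ (33/100000) * (38/1000) := by
    nlinarith
  linarith

theorem masses {Kd Kc : ℝ} (hd : 0 < Kd) (hc : 0 < Kc) :
    ∃ m₁ m₂ : ℝ, 0 < m₁ ∧ 0 < m₂ ∧ m₁ * Kad + m₂ * Kbd + Kd = 0 ∧ m₁ * Kac + m₂ * Kbc + Kc = 0 := by
  obtain ⟨h1, h2, h3, h4, h5, h6, h7, h8⟩ := K_bounds
  exact solve2 (by linarith) (by linarith) (by linarith) (by linarith) det_pos hd hc

end Pool.Agent.Harm938
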