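import Pool.Agent.Harm938.Image

open Complex Set Filter Topology

namespace Pool.Agent.Harm938

theorem dsign {a B e x : ℝ} (ha : 0 < a) (he : e ≠ 0) (he0 : a * e^2 + B * e - 1 = 0)
    (hxe : 0 < x * e) : a * x + B - 1/x = (x - e) * (a + 1/(x * e)) := by
  have hx : x ≠ 0 := by rintro rfl; simp at hxe
  field_simp
  linear_combination x * he0

theorem xlev_tendsto {a : ℝ} (B : ℝ) (ha : 0 < a) {e Ye : ℝ} (he : e ≠ 0)
    (hYe : Ye = if 0 < e then 0 else -Real.pi) (he0 : a * e^2 + B * e - 1 = 0) :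
    Tendsto (xlev a B Ye) (𝓝[>] (0:ℝ)) (𝓝 e) := by
  have hlow : ∀ x : ℝ, x < e → 0 < x * e → ∀ᶠ y : ℝ in 𝓝[>] (0:ℝ), x < xlev a B Ye y := by
    intro x hx hxe
    have hx0 : x ≠ 0 := by rintro rfl; simp at hxe
    have hs : a * x + B - 1/x < 0 := by
      rw [dsign ha he he0 hxe]
      have : 0 < 1/(x * e) := by positivity
      nlinarith
    have hYe' : Ye = if 0 < x then 0 else -Real.pi := by
      rw [hYe]
      rcases lt_or_gt_of_ne he with h | h
      · rw [if_neg (by linarith), if_neg (by linarith)]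
      · have : 0 < x := (pos_iff_pos_of_mul_pos hxe).mpr h
        rw [if_pos h, if_pos this]
    filter_upwards [near_real_neg a B hx0 hYe' hs, self_mem_nhdsWithin] with y hy hy0
    exact lt_xlev ha hy0 hy
  have hupp : ∀ x : ℝ, e < x → 0 < x * e → ∀ᶠ y : ℝ in 𝓝[>] (0:ℝ), xlev a B Ye y < x := by
    intro x hx hxe
    have hx0 : x ≠ 0 := by rintro rfl; simp at hxe
    have hs : 0 < a * x + B - 1/x := by
      rw [dsign ha he he0 hxe]
      have : 0 < 1/(x * e) := by positivity
      nlinarith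
    have hYe' : Ye = if 0 < x then 0 else -Real.pi := by
      rw [hYe]
      rcases lt_or_gt_of_ne he with h | h
      · have : ¬ (0 < x) := by
          intro h'
          have := (pos_iff_pos_of_mul_pos hxe).mp h'
          linarith
        rw [if_neg (by linarith), if_neg this]
      · rw [if_pos h, if_pos (by linarith)]
    filter_upwards [near_real_pos a B hx0 hYe' hs, self_mem_nhdsWithin] with y hy hy0
    exact xlev_lt ha hy0 hy
  rw [tendsto_order]
  constructor
  · intro x hx
    rcases lt_or_gt_of_ne he with h | h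
    · exact hlow x hx (by nlinarith)
    · have h1 := hlow (max x (e/2)) (by rw [max_lt_iff]; constructor <;> linarith)
        (mul_pos (lt_of_lt_of_le (by linarith) (le_max_right _ _)) h)
      filter_upwards [h1] with y hy
      exact lt_of_le_of_lt (le_max_left _ _) hy
  · intro x hx
    rcases lt_or_gt_of_ne he with h | h
    · have h2 : min x (e/2) < 0 := lt_of_le_of_lt (min_le_right _ _) (by linarith)
      have h1 := hupp (min x (e/2)) (by rw [lt_min_iff]; constructor <;> linarith)
        (by nlinarith)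
      filter_upwards [h1] with y hy
      exact lt_of_lt_of_le hy (min_le_left _ _)
    · exact hupp x hx (by nlinarith)

theorem tip_tendsto {a : ℝ} (B : ℝ) (ha : 0 < a) {e Ye : ℝ} (he : e ≠ 0)
    (hYe : Ye = if 0 < e then 0 else -Real.pi) (he0 : a * e^2 + B * e - 1 = 0) :
    Tendsto (fun y : ℝ => ((xlev a B Ye y : ℝ) : ℂ) + y * I) (𝓝[>] (0:ℝ)) (𝓝[UH] (e:ℂ)) := by
  apply tendsto_nhdsWithin_of_tendsto_nhds_of_eventually_within
  · have h1 := xlev_tendsto B ha he hYe he0
    have h2 : Tendsto (fun y : ℝ => ((xlev a B Ye y : ℝ) : ℂ)) (𝓝[>] (0:ℝ)) (𝓝 (e:ℂ)) :=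
      (Complex.continuous_ofReal.tendsto e).comp h1
    have h3 : Tendsto (fun y : ℝ => (y : ℂ) * I) (𝓝[>] (0:ℝ)) (𝓝 0) := by
      have : Tendsto (fun y : ℝ => (y : ℂ) * I) (𝓝 (0:ℝ)) (𝓝 (((0:ℝ):ℂ) * I)) :=
        Continuous.tendsto (by fun_prop) 0
      simp only [ofReal_zero, zero_mul] at this
      exact this.mono_left nhdsWithin_le_nhds
    simpa using h2.add h3
  · filter_upwards [self_mem_nhdsWithin] with y hy
    have hy' : (0:ℝ) < y := hy
    show 0 < (((xlev a B Ye y : ℝ) : ℂ) + y * I).im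
    simpa using hy'

variable {a B : ℝ} {A p : ℂ → ℂ}

theorem lev_gt (ha : 0 < a)
    (hA : ∀ s, 0 < s.im → HasDerivAt A (p s * dpsi a B s) s)
    (hp : ∀ s, 0 < s.im → 1 ≤ (p s).re) {s t : ℂ} (hs : 0 < s.im) (ht : 0 < t.im)
    (hl : (psi a B s).im = (psi a B t).im) (hlt : s.im < t.im) : (A t).re < (A s).re := by
  have h1 := key_mono B ha hA hp hs ht hl hlt
  have h2 := level_lt B ha.le hs ht hl hlt
  linarith

theorem lt_tip (ha : 0 < a)
    (hA : ∀ s, 0 < s.im → HasDerivAt A (p s * dpsi a B s) s)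
    (hp : ∀ s, 0 < s.im → 1 ≤ (p s).re) {e Ye Xe : ℝ} (he : e ≠ 0)
    (hYe : Ye = if 0 < e then 0 else -Real.pi) (he0 : a * e^2 + B * e - 1 = 0)
    (hXe : Tendsto (fun s => (A s).re) (𝓝[UH] (e:ℂ)) (𝓝 Xe)) {s : ℂ} (hs : 0 < s.im)
    (hl : (psi a B s).im = Ye) : (A s).re < Xe := by
  set γ : ℝ → ℂ := fun y : ℝ => ((xlev a B Ye y : ℝ) : ℂ) + y * I with hγ
  have hγim : ∀ y, (γ y).im = y := by intro y; simp [hγ]
  have hγl : ∀ y, 0 < y → (psi a B (γ y)).im = Ye := fun y hy => xlev_spec B ha Ye hy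
  have h1 : Tendsto (fun y => (A (γ y)).re) (𝓝[>] (0:ℝ)) (𝓝 Xe) :=
    hXe.comp (tip_tendsto B ha he hYe he0)
  have h2 : 0 < s.im / 2 := by linarith
  have h3 : (A s).re < (A (γ (s.im/2))).re := by
    apply lev_gt ha hA hp (by rw [hγim]; exact h2) hs (by rw [hγl _ h2, hl]) (by rw [hγim]; linarith)
  have h4 : (A (γ (s.im/2))).re ≤ Xe := by
    apply ge_of_tendsto h1
    have h5 : ∀ᶠ y : ℝ in 𝓝[>] (0:ℝ), y < s.im/2 :=
      nhdsWithin_le_nhds (gt_mem_nhds h2)
    filter_upwards [h5, self_mem_nhdsWithin] with y hy hy0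
    have hy0' : (0:ℝ) < y := hy0
    apply le_of_lt
    apply lev_gt ha hA hp (by rw [hγim]; exact hy0') (by rw [hγim]; exact h2)
      (by rw [hγl _ h2, hγl _ hy0']) (by rw [hγim, hγim]; exact hy)
  linarith

theorem exists_near_tip (ha : 0 < a) {e Ye Xe : ℝ} (he : e ≠ 0)
    (hYe : Ye = if 0 < e then 0 else -Real.pi) (he0 : a * e^2 + B * e - 1 = 0)
    (hXe : Tendsto (fun s => (A s).re) (𝓝[UH] (e:ℂ)) (𝓝 Xe)) {X : ℝ} (hX : X < Xe) :
    ∃ s : ℂ, 0 < s.im ∧ (psi a B s).im = Ye ∧ X ≤ (A s).re := by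
  have h1 : Tendsto (fun y : ℝ => (A (((xlev a B Ye y : ℝ) : ℂ) + y * I)).re) (𝓝[>] (0:ℝ)) (𝓝 Xe) :=
    hXe.comp (tip_tendsto B ha he hYe he0)
  have h2 := h1.eventually (lt_mem_nhds hX)
  obtain ⟨y, hy1, hy2⟩ := (h2.and self_mem_nhdsWithin).exists
  have hy0 : (0:ℝ) < y := hy2
  exact ⟨_, by simpa using hy0, xlev_spec B ha Ye hy0, hy1.le⟩

/-- The plane minus two horizontal closed half-lines going to the right:
`{Im w = 0, Re w ≥ X₁}` and `{Im w = -π, Re w ≥ X₂}`. -/
def slitPl (X₁ X₂ : ℝ) : Set ℂ :=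
  {w : ℂ | (w.im ≠ 0 ∨ w.re < X₁) ∧ (w.im ≠ -Real.pi ∨ w.re < X₂)}

/-- The shear `Re A + i Im ψ`. -/
noncomputable def shear (a B : ℝ) (A : ℂ → ℂ) (s : ℂ) : ℂ :=
  ((A s).re : ℂ) + ((psi a B s).im : ℂ) * I

theorem shear_re (s : ℂ) : (shear a B A s).re = (A s).re := by simp [shear]
theorem shear_im (s : ℂ) : (shear a B A s).im = (psi a B s).im := by simp [shear]

theorem shear_injOn (ha : 0 < a)
    (hA : ∀ s, 0 < s.im → HasDerivAt A (p s * dpsi a B s) s)
    (hp : ∀ s, 0 < s.im → 1 ≤ (p s).re) : InjOn (shear a B A) UH := by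
  intro s hs t ht hst
  have hs' : 0 < s.im := hs
  have ht' : 0 < t.im := ht
  have hre : (A s).re = (A t).re := by
    have := congrArg Complex.re hst
    rwa [shear_re, shear_re] at this
  have him : (psi a B s).im = (psi a B t).im := by
    have := congrArg Complex.im hst
    rwa [shear_im, shear_im] at this
  rcases lt_trichotomy s.im t.im with h | h | h
  · have := lev_gt ha hA hp hs' ht' him h
    linarith
  · have e1 : s = (s.re : ℂ) + s.im * I := (Complex.re_add_im s).symm
    have e2 : t = (t.re : ℂ) + t.im * I := (Complex.re_add_im t).symm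
    have h1 := xlev_unique (B := B) (Y := (psi a B t).im) (x := s.re) (y := s.im) ha hs'
      (by rw [← e1]; exact him)
    have h2 := xlev_unique (B := B) (Y := (psi a B t).im) (x := t.re) (y := s.im) ha hs'
      (by rw [h, ← e2])
    apply Complex.ext
    · rw [h1, h2]
    · exact h
  · have := lev_gt ha hA hp ht' hs' him.symm h
    linarith

theorem shear_image (ha : 0 < a)
    (hA : ∀ s, 0 < s.im → HasDerivAt A (p s * dpsi a B s) s)
    (hp : ∀ s, 0 < s.im → 1 ≤ (p s).re) {c d Xc Xd : ℝ} (hc : c < 0) (hd : 0 < d)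
    (hc0 : a * c^2 + B * c - 1 = 0) (hd0 : a * d^2 + B * d - 1 = 0)
    (hXc : Tendsto (fun s => (A s).re) (𝓝[UH] (c:ℂ)) (𝓝 Xc))
    (hXd : Tendsto (fun s => (A s).re) (𝓝[UH] (d:ℂ)) (𝓝 Xd)) :
    shear a B A '' UH = slitPl Xd Xc := by
  have hpi := Real.pi_pos
  have hYd : (0:ℝ) = if 0 < d then 0 else -Real.pi := by rw [if_pos hd]
  have hYc : (-Real.pi) = if 0 < c then 0 else -Real.pi := by rw [if_neg (by linarith)]
  apply Subset.antisymm
  · rintro w ⟨s, hs, rfl⟩
    have hs' : 0 < s.im := hs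
    refine ⟨?_, ?_⟩
    · rw [shear_re, shear_im]
      by_cases h : (psi a B s).im = 0
      · right
        exact lt_tip ha hA hp hd.ne' hYd hd0 hXd hs' h
      · left; exact h
    · rw [shear_re, shear_im]
      by_cases h : (psi a B s).im = -Real.pi
      · right
        exact lt_tip ha hA hp hc.ne hYc hc0 hXc hs' h
      · left; exact h
  · rintro w ⟨hw1, hw2⟩
    -- a high point
    have hhigh : ∃ s : ℂ, 0 < s.im ∧ (psi a B s).im = w.im ∧ w.re ≤ (A s).re := by
      have base : (∀ N : ℝ, ∃ s : ℂ, 0 < s.im ∧ (psi a B s).im = w.im ∧ N < (psi a B s).re) →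
          ∃ s : ℂ, 0 < s.im ∧ (psi a B s).im = w.im ∧ w.re ≤ (A s).re := by
        intro hN
        obtain ⟨t, ht1, ht2, _⟩ := hN 0
        obtain ⟨s, hs1, hs2, hs3⟩ := hN (max (psi a B t).re ((psi a B t).re + w.re - (A t).re))
        refine ⟨s, hs1, hs2, ?_⟩
        have h1 := lt_of_le_of_lt (le_max_left _ _) hs3
        have h2 := lt_of_le_of_lt (le_max_right _ _) hs3
        rcases lt_trichotomy s.im t.im with h | h | h
        · have := key_mono B ha hA hp hs1 ht1 (by rw [hs2, ht2]) h
          linarith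
        · exfalso
          have e1 : s = (s.re : ℂ) + s.im * I := (Complex.re_add_im s).symm
          have e2 : t = (t.re : ℂ) + t.im * I := (Complex.re_add_im t).symm
          have h3 := xlev_unique (B := B) (Y := w.im) (x := s.re) (y := s.im) ha hs1
            (by rw [← e1]; exact hs2)
          have h4 := xlev_unique (B := B) (Y := w.im) (x := t.re) (y := s.im) ha hs1
            (by rw [h, ← e2]; exact ht2)
          have : s = t := by
            apply Complex.ext
            · rw [h3, h4]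
            · exact h
          rw [this] at h1
          exact lt_irrefl _ h1
        · exfalso
          have := level_lt B ha.le ht1 hs1 (by rw [hs2, ht2]) h
          linarith
      rcases lt_trichotomy w.im 0 with h | h | h
      · rcases lt_trichotomy w.im (-Real.pi) with h' | h' | h'
        · exact base (fun N => exists_high_neg B ha h' N)
        · rw [h']
          rcases hw2 with h2 | h2
          · exact absurd h' h2
          · exact exists_near_tip ha hc.ne hYc hc0 hXc h2
        · exact base (fun N => exists_high_mid B ha h' h N)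
      · rw [h]
        rcases hw1 with h2 | h2
        · exact absurd h h2
        · exact exists_near_tip ha hd.ne' hYd hd0 hXd h2
      · exact base (fun N => exists_high_pos B ha h N)
    have hlow : ∃ s : ℂ, 0 < s.im ∧ (psi a B s).im = w.im ∧ (A s).re ≤ w.re := by
      obtain ⟨t, ht1, ht2, _⟩ := exists_low B ha w.im 0
      obtain ⟨s, hs1, hs2, hs3⟩ := exists_low B ha w.im
        (min (psi a B t).re ((psi a B t).re + w.re - (A t).re))
      refine ⟨s, hs1, hs2, ?_⟩
      have h1 := lt_of_lt_of_le hs3 (min_le_left _ _)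
      have h2 := lt_of_lt_of_le hs3 (min_le_right _ _)
      rcases lt_trichotomy s.im t.im with h | h | h
      · exfalso
        have := level_lt B ha.le hs1 ht1 (by rw [hs2, ht2]) h
        linarith
      · exfalso
        have e1 : s = (s.re : ℂ) + s.im * I := (Complex.re_add_im s).symm
        have e2 : t = (t.re : ℂ) + t.im * I := (Complex.re_add_im t).symm
        have h3 := xlev_unique (B := B) (Y := w.im) (x := s.re) (y := s.im) ha hs1
          (by rw [← e1]; exact hs2)
        have h4 := xlev_unique (B := B) (Y := w.im) (x := t.re) (y := s.im) ha hs1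
          (by rw [h, ← e2]; exact ht2)
        have : s = t := by
          apply Complex.ext
          · rw [h3, h4]
          · exact h
        rw [this] at h1
        exact lt_irrefl _ h1
      · have := key_mono B ha hA hp ht1 hs1 (by rw [hs2, ht2]) h
        linarith
    obtain ⟨s, hs1, hs2, hs3⟩ := hhigh
    obtain ⟨t, ht1, ht2, ht3⟩ := hlow
    have hconn := level_preconnected B ha w.im
    have hcont : ContinuousOn (fun z : ℂ => (A z).re) {z : ℂ | 0 < z.im ∧ (psi a B z).im = w.im} := by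
      intro z hz
      exact (Complex.continuous_re.continuousAt.comp (hA z hz.1).continuousAt).continuousWithinAt
    have := hconn.intermediate_value (show t ∈ _ from ⟨ht1, ht2⟩) (show s ∈ _ from ⟨hs1, hs2⟩) hcont
      (show w.re ∈ Icc _ _ from ⟨ht3, hs3⟩)
    obtain ⟨z, ⟨hz1, hz2⟩, hz3⟩ := this
    refine ⟨z, hz1, ?_⟩
    apply Complex.ext
    · rw [shear_re]; exact hz3
    · rw [shear_im]; exact hz2

end Pool.Agent.Harm938
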