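import Pool.Agent.Harm938.Shear

open Complex Set Filter Topology

namespace Pool.Agent.Harm938

theorem slitPl_isOpen (X₁ X₂ : ℝ) : IsOpen (slitPl X₁ X₂) := by
  have h1 : IsClosed {w : ℂ | w.im = 0 ∧ X₁ ≤ w.re} :=
    (isClosed_eq Complex.continuous_im continuous_const).inter
      (isClosed_le continuous_const Complex.continuous_re)
  have h2 : IsClosed {w : ℂ | w.im = -Real.pi ∧ X₂ ≤ w.re} :=
    (isClosed_eq Complex.continuous_im continuous_const).inter
      (isClosed_le continuous_const Complex.continuous_re)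
  have h3 : slitPl X₁ X₂ = {w : ℂ | w.im = 0 ∧ X₁ ≤ w.re}ᶜ ∩ {w : ℂ | w.im = -Real.pi ∧ X₂ ≤ w.re}ᶜ := by
    ext w
    simp only [slitPl, mem_setOf_eq, mem_inter_iff, mem_compl_iff, not_and, not_le]
    constructor
    · rintro ⟨ha, hb⟩
      refine ⟨fun h => ?_, fun h => ?_⟩
      · rcases ha with ha | ha
        · exact absurd h ha
        · exact ha
      · rcases hb with hb | hb
        · exact absurd h hb
        · exact hb
    · rintro ⟨ha, hb⟩
      refine ⟨?_, ?_⟩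
      · by_cases h : w.im = 0
        · right; exact ha h
        · left; exact h
      · by_cases h : w.im = -Real.pi
        · right; exact hb h
        · left; exact h
  rw [h3]
  exact h1.isOpen_compl.inter h2.isOpen_compl

theorem slitPl_ne_univ (X₁ X₂ : ℝ) : slitPl X₁ X₂ ≠ univ := by
  intro h
  have : (X₁ : ℂ) ∈ slitPl X₁ X₂ := by rw [h]; trivial
  rcases this.1 with h1 | h1
  · exact h1 (by simp)
  · simp at h1

theorem slitPl_sub {X₁ X₂ : ℝ} {w : ℂ} (hw : w ∈ slitPl X₁ X₂) {r : ℝ} (hr : 0 ≤ r) :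
    w - (r:ℂ) ∈ slitPl X₁ X₂ := by
  obtain ⟨h1, h2⟩ := hw
  refine ⟨?_, ?_⟩
  · simp only [sub_im, ofReal_im, sub_zero, sub_re, ofReal_re]
    rcases h1 with h | h
    · left; exact h
    · right; linarith
  · simp only [sub_im, ofReal_im, sub_zero, sub_re, ofReal_re]
    rcases h2 with h | h
    · left; exact h
    · right; linarith

theorem slitPl_half {X₁ X₂ : ℝ} {w : ℂ} (hw : w.re ≤ -(|X₁| + |X₂| + 1)) :
    w ∈ slitPl X₁ X₂ := by
  have h1 := neg_abs_le X₁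
  have h2 := neg_abs_le X₂
  have h3 := abs_nonneg X₁
  have h4 := abs_nonneg X₂
  exact ⟨Or.inr (by linarith), Or.inr (by linarith)⟩

theorem slitPl_simplyConnected (X₁ X₂ : ℝ) : IsSimplyConnected (slitPl X₁ X₂) := by
  set K : ℝ := |X₁| + |X₂| + 1 with hK
  have hKpos : 0 < K := by positivity
  have hK0 : ∀ w : ℂ, 0 ≤ |w.re| + K := fun w => by positivity
  have hre1 : ∀ w : ℂ, (w - ((|w.re| + K : ℝ) : ℂ)).re ≤ -K := by
    intro w
    simp only [sub_re, ofReal_re]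
    have := le_abs_self w.re
    linarith
  let f1 : C(slitPl X₁ X₂, slitPl X₁ X₂) :=
    ⟨fun w => ⟨(w:ℂ) - ((|(w:ℂ).re| + K : ℝ) : ℂ), slitPl_sub w.2 (hK0 w)⟩, by
      apply Continuous.subtype_mk
      fun_prop⟩
  have hpt : (((-K : ℝ)) : ℂ) ∈ slitPl X₁ X₂ := slitPl_half (by simp [hK])
  let f2 : C(slitPl X₁ X₂, slitPl X₁ X₂) := ContinuousMap.const _ ⟨((-K : ℝ) : ℂ), hpt⟩
  have H1 : (ContinuousMap.id (slitPl X₁ X₂)).Homotopic f1 := by
    refine ⟨⟨⟨fun q => ⟨(q.2:ℂ) - (((q.1 : ℝ) * (|(q.2:ℂ).re| + K) : ℝ) : ℂ),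
      slitPl_sub q.2.2 (mul_nonneg q.1.2.1 (hK0 q.2))⟩, ?_⟩, ?_, ?_⟩⟩
    · apply Continuous.subtype_mk
      fun_prop
    · intro x
      apply Subtype.ext
      simp
    · intro x
      apply Subtype.ext
      simp [f1]
  have H2 : f1.Homotopic f2 := by
    refine ⟨⟨⟨fun q => ⟨((1 - (q.1:ℝ) : ℝ) : ℂ) * ((q.2:ℂ) - ((|(q.2:ℂ).re| + K : ℝ) : ℂ))
        + ((q.1 : ℝ) : ℂ) * ((-K : ℝ) : ℂ), slitPl_half ?_⟩, ?_⟩, ?_, ?_⟩⟩
    · rw [add_re, re_ofReal_mul, re_ofReal_mul, ofReal_re, ← hK]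
      have h1 := hre1 q.2
      have h2 : (0:ℝ) ≤ 1 - (q.1:ℝ) := by linarith [q.1.2.2]
      have h3 : (1 - (q.1:ℝ)) * ((q.2:ℂ) - ((|(q.2:ℂ).re| + K : ℝ) : ℂ)).re ≤ (1 - (q.1:ℝ)) * (-K) :=
        mul_le_mul_of_nonneg_left h1 h2
      linarith
    · apply Continuous.subtype_mk
      fun_prop
    · intro x
      apply Subtype.ext
      simp [f1]
    · intro x
      apply Subtype.ext
      simp [f2]
  have hc : ContractibleSpace (slitPl X₁ X₂) := by
    rw [contractible_iff_id_nullhomotopic]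
    exact ⟨_, H1.trans H2⟩
  exact SimplyConnectedSpace.ofContractible _

end Pool.Agent.Harm938
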